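import Pool.Agent.Helper40.GR.Main

set_option autoImplicit false

/-!
# From walks between the halves to distances in graphs
-/

namespace Pool.Agent.Helper40.GR

open Finset Filter
open Pool.Agent.E8helper66.GB

/-- the conclusion of the path theorem -/
def Pth (Q : ℕ → ℕ → Prop) (n B : ℕ) : Prop := ∀ lo ≤ 1, ∀ u v : ℕ, lo ≤ u → u ≤ n → lo ≤ v → v ≤ n →
      (Same u v → Wk Q lo n 4 u v) ∧
      ((u + v) % 2 = 1 → (3 ∣ v ↔ ¬ 3 ∣ u) → Wk Q lo n 3 u v) ∧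
      ((u + v) % 2 = 1 → ¬ 3 ∣ u → ¬ 3 ∣ v → Wk Q lo n 5 u v) ∧
      (u % 2 = v % 2 → 3 ∣ u → ¬ 3 ∣ v → Wk Q lo n 6 u v) ∧
      ((u + v) % 2 = 1 → 3 ∣ u → 3 ∣ v → Wk Q lo n 7 u v) ∧
      (HypD Q n B → u % 2 = v % 2 → 3 ∣ u → ¬ 3 ∣ v → Wk Q lo n 4 u v) ∧
      (HypD Q n B → (u + v) % 2 = 1 → 3 ∣ u → 3 ∣ v → Wk Q lo n 5 u v)

section
variable {V : Type} (G : SimpleGraph V) (lo n B : ℕ) (hlo : lo ≤ 1) (φ : ℕ → V) (h : V → ℕ) (Q : ℕ → ℕ → Prop)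
    (hφ : ∀ m ∈ Icc lo n, h (φ m) = m) (hinj : Function.Injective h) (hr : ∀ v, h v ∈ Icc lo n)
    (hadj : ∀ a ∈ Icc lo n, ∀ b ∈ Icc lo n, Q a b → G.Adj (φ a) (φ b)) (hP : Pth Q n B)

include hφ hinj hr hadj hP hlo

lemma gen_dist (u v : V) : G.edist u v ≤ 7 ∧ (¬ (3 ∣ h u ∧ 3 ∣ h v) → G.edist u v ≤ 6) ∧
    (¬ 3 ∣ h u → ¬ 3 ∣ h v → G.edist u v ≤ 5) := by
  have hu := mem_Icc.1 (hr u)
  have hv := mem_Icc.1 (hr v)
  have key := fun (u v : V) (r : ℕ) => up G lo n φ h Q hφ hinj hr hadj u v r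
  obtain ⟨p1, p2, p3, p4, p5, -⟩ := hP lo hlo (h u) (h v) hu.1 hu.2 hv.1 hv.2
  obtain ⟨-, -, -, q4, -⟩ := hP lo hlo (h v) (h u) hv.1 hv.2 hu.1 hu.2
  have t45 : ((4 : ℕ) : ℕ∞) ≤ 5 := by norm_num
  have t46 : ((4 : ℕ) : ℕ∞) ≤ 6 := by norm_num
  have t47 : ((4 : ℕ) : ℕ∞) ≤ 7 := by norm_num
  have t35 : ((3 : ℕ) : ℕ∞) ≤ 5 := by norm_num
  have t36 : ((3 : ℕ) : ℕ∞) ≤ 6 := by norm_num
  have t37 : ((3 : ℕ) : ℕ∞) ≤ 7 := by norm_num
  have t56 : ((5 : ℕ) : ℕ∞) ≤ 6 := by norm_num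
  have t57 : ((5 : ℕ) : ℕ∞) ≤ 7 := by norm_num
  have t67 : ((6 : ℕ) : ℕ∞) ≤ 7 := by norm_num
  by_cases hp : (h u + h v) % 2 = 1
  · by_cases h3u : 3 ∣ h u
    · by_cases h3v : 3 ∣ h v
      · have := key u v 7 (p5 hp h3u h3v)
        exact ⟨this, fun hc => absurd ⟨h3u, h3v⟩ hc, fun hc => absurd h3u hc⟩
      · have := key u v 3 (p2 hp (iff_of_false h3v (fun h => h h3u)))
        exact ⟨this.trans t37, fun _ => this.trans t36, fun _ _ => this.trans t35⟩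
    · by_cases h3v : 3 ∣ h v
      · have := key u v 3 (p2 hp (iff_of_true h3v h3u))
        exact ⟨this.trans t37, fun _ => this.trans t36, fun _ _ => this.trans t35⟩
      · have := key u v 5 (p3 hp h3u h3v)
        exact ⟨this.trans t57, fun _ => this.trans t56, fun _ _ => this⟩
  · have hp2 : h u % 2 = h v % 2 := by omega
    by_cases h3u : 3 ∣ h u
    · by_cases h3v : 3 ∣ h v
      · have := key u v 4 (p1 ⟨hp2, iff_of_true h3u h3v⟩)
        exact ⟨this.trans t47, fun _ => this.trans t46, fun _ _ => this.trans t45⟩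
      · have := key u v 6 (p4 hp2 h3u h3v)
        exact ⟨this.trans t67, fun _ => this, fun hc => absurd h3u hc⟩
    · by_cases h3v : 3 ∣ h v
      · have := key v u 6 (q4 hp2.symm h3v h3u)
        rw [SimpleGraph.edist_comm] at this
        exact ⟨this.trans t67, fun _ => this, fun _ hc => absurd h3v hc⟩
      · have := key u v 4 (p1 ⟨hp2, iff_of_false h3u h3v⟩)
        exact ⟨this.trans t47, fun _ => this.trans t46, fun _ _ => this.trans t45⟩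

lemma gen_dist5 (hD : HypD Q n B) (u v : V) : G.edist u v ≤ 5 := by
  have hu := mem_Icc.1 (hr u)
  have hv := mem_Icc.1 (hr v)
  have key := fun (u v : V) (r : ℕ) => up G lo n φ h Q hφ hinj hr hadj u v r
  obtain ⟨p1, p2, p3, -, -, p6, p7⟩ := hP lo hlo (h u) (h v) hu.1 hu.2 hv.1 hv.2
  obtain ⟨-, -, -, -, -, q6, -⟩ := hP lo hlo (h v) (h u) hv.1 hv.2 hu.1 hu.2
  have t45 : ((4 : ℕ) : ℕ∞) ≤ 5 := by norm_num
  have t35 : ((3 : ℕ) : ℕ∞) ≤ 5 := by norm_num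
  by_cases hp : (h u + h v) % 2 = 1
  · by_cases h3u : 3 ∣ h u
    · by_cases h3v : 3 ∣ h v
      · exact key u v 5 (p7 hD hp h3u h3v)
      · exact (key u v 3 (p2 hp (iff_of_false h3v (fun h => h h3u)))).trans t35
    · by_cases h3v : 3 ∣ h v
      · exact (key u v 3 (p2 hp (iff_of_true h3v h3u))).trans t35
      · exact key u v 5 (p3 hp h3u h3v)
  · have hp2 : h u % 2 = h v % 2 := by omega
    by_cases h3u : 3 ∣ h u
    · by_cases h3v : 3 ∣ h v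
      · exact (key u v 4 (p1 ⟨hp2, iff_of_true h3u h3v⟩)).trans t45
      · exact (key u v 4 (p6 hD hp2 h3u h3v)).trans t45
    · by_cases h3v : 3 ∣ h v
      · have := key v u 4 (q6 hD hp2.symm h3v h3u)
        rw [SimpleGraph.edist_comm] at this
        exact this.trans t45
      · exact (key u v 4 (p1 ⟨hp2, iff_of_false h3u h3v⟩)).trans t45

end

lemma connected_of {V : Type} (G : SimpleGraph V) (r : ℕ) (v₀ : V) (h : ∀ u v, G.edist u v ≤ r) :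
    G.Connected ∧ G.ediam ≤ r := by
  have hne : Nonempty V := ⟨v₀⟩
  refine ⟨?_, SimpleGraph.ediam_le_of_edist_le h⟩
  rw [SimpleGraph.connected_iff]
  refine ⟨fun u v => ?_, hne⟩
  apply SimpleGraph.edist_ne_top_iff_reachable.1
  intro htop
  have := h u v
  rw [htop] at this
  exact absurd this (by simp)

/-- the lower bound -/
lemma low_ediam {V : Type} (G : SimpleGraph V) (lo n : ℕ) (hlo : lo ≤ 1) (hn : 481 ≤ n) (φ : ℕ → V) (h : V → ℕ)
    (hφ : ∀ m ∈ Icc lo n, h (φ m) = m)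
    (hG : ∀ u v, G.Adj u v → OQ (h u + h v) ∧ OQ (Nat.dist (h u) (h v)))
    (h0 : ∀ u v, G.Adj u v → h u = 0 → (h v).Prime) : 5 ≤ G.ediam := by
  have hle : G.edist (φ 481) (φ 166) ≤ G.ediam := SimpleGraph.edist_le_ediam
  refine le_trans ?_ hle
  have hu : h (φ 481) = 481 := hφ _ (mem_Icc.2 ⟨by omega, by omega⟩)
  have hv : h (φ 166) = 166 := hφ _ (mem_Icc.2 ⟨by omega, by omega⟩)
  unfold SimpleGraph.edist
  apply le_iInf
  intro w
  have h5 := low G h hG h0 _ _ (by rw [hu]; unfold Spec; omega) (by rw [hv]; unfold Spec; omega)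
    (by rw [hu]) (by rw [hv]) (by rw [hu]; norm_num) (by rw [hv]; norm_num) w
  exact_mod_cast h5

end Pool.Agent.Helper40.GR
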