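import Pool.Agent.Helper40.GR.Sets
import Pool.Graph.R_pool_sql_team_seeded_b677cdb8.E8helper66.GB.Stm2
import Pool.Graph.R_pool_sql_team_seeded_b677cdb8.E8helper28.GB.Five

set_option autoImplicit false

/-!
# Paths in the relaxed Goldbach graphs
-/

namespace Pool.Agent.Helper40.GR

open Finset Filter
open Pool.Agent.E8helper66.GB
open Pool.Agent.E8helper98.GB (ev ev_log log_tendsto ev_pow noedge)
open Pool.Agent.H373R2.T7 (lamz pz Vz Vz_pos mem_pz)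
open Pool.Agent.R521.GG (R)

lemma Vz_le_one (z : ℕ) : Vz z ≤ 1 := by
  unfold Vz
  apply prod_le_one
  · intro p hp
    rw [mem_pz] at hp
    have := hp.2.two_le
    have h2 : (2 : ℝ) ≤ p := by exact_mod_cast this
    have : 1 / (p : ℝ) ≤ 1 := by
      rw [div_le_one (by linarith)]
      linarith
    linarith
  · intro p hp
    have : 0 ≤ 1 / (p : ℝ) := by positivity
    linarith

lemma lamz_ge_one {x : ℝ} {z m : ℕ} (h : Rs x m) (hz : (z : ℝ) ≤ x) : 1 ≤ lamz z m := by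
  unfold lamz
  rw [if_pos]
  · rw [one_le_inv₀ (Vz_pos z)]
    exact Vz_le_one z
  · intro p hp hpm
    rw [mem_pz] at hp
    have h1 := h.2 p hp.2 hpm
    have h2 : (p : ℝ) ≤ z := by exact_mod_cast hp.1
    linarith

lemma ev_logpow (K : ℕ) (κ : ℝ) (hκ : 0 < κ) : ∃ n₀ : ℕ, ∀ n : ℕ, n₀ ≤ n → Real.log n ^ K ≤ (n : ℝ) ^ κ := by
  apply ev
  have h1 := isLittleO_log_rpow_rpow_atTop (s := κ) (K : ℝ) hκ
  have h2 := h1.bound (show (0 : ℝ) < 1 by norm_num)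
  have h3 := (tendsto_natCast_atTop_atTop (R := ℝ)).eventually h2
  filter_upwards [h3, log_tendsto.eventually_ge_atTop 0] with N h4 h5
  rw [Real.norm_of_nonneg (by positivity), Real.norm_of_nonneg (by positivity), Real.rpow_natCast, one_mul] at h4
  exact h4

/-- a large set of vertices has an edge to a set which contains many admissible partners of each of them -/
lemma one_step (hE : S_EST) (B : ℕ) (κ : ℝ) (hκ : 0 < κ) : ∃ n₀ : ℕ, ∀ n : ℕ, n₀ ≤ n → ∀ A ⊆ Icc 1 n,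
    (n : ℝ) / Real.log n ^ B ≤ A.card → ∀ M ⊆ Icc 1 n, (∀ c ∈ A, ∃ W ⊆ M, (n : ℝ) / Real.log n ^ B ≤ W.card ∧
      ∀ w ∈ W, Rs ((n : ℝ) ^ κ) (c + w) ∧ Rs ((n : ℝ) ^ κ) (Nat.dist c w)) → ∃ c ∈ A, ∃ w ∈ M, R c w := by
  obtain ⟨D, hD⟩ := hE (2 * B + 1)
  obtain ⟨m1, h1⟩ := hD (D + 1)
  obtain ⟨m3, h3⟩ := noedge (2 * B + 1)
  obtain ⟨m4, h4⟩ := ev_logpow (D + 1) κ hκ
  obtain ⟨m5, h5⟩ := ev_log 3
  refine ⟨m1 + m3 + m4 + m5 + 2, fun n hn A hA hAc M hM hW => ?_⟩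
  by_contra hcon
  push Not at hcon
  have hlog : 3 ≤ Real.log n := h5 n (by omega)
  have hlogB : 1 ≤ Real.log n ^ D := one_le_pow₀ (by linarith)
  have hz1 : Real.log n ^ D ≤ (⌈Real.log n ^ D⌉₊ : ℝ) := Nat.le_ceil _
  have hz2 : (⌈Real.log n ^ D⌉₊ : ℝ) ≤ Real.log n ^ (D + 1) := by
    have := (Nat.ceil_lt_add_one (show 0 ≤ Real.log n ^ D by linarith)).le
    rw [pow_succ]
    nlinarith
  obtain ⟨z, hz⟩ : ∃ z, z = ⌈Real.log n ^ D⌉₊ := ⟨_, rfl⟩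
  rw [← hz] at hz1 hz2
  have hzκ : (z : ℝ) ≤ (n : ℝ) ^ κ := hz2.trans (h4 n (by omega))
  have e1 := h1 n (by omega) z hz1 hz2 A hA M hM
  have e2 := h3 n (by omega) A hA M hM hcon
  have hn0 : (0 : ℝ) < n := by exact_mod_cast (by omega : 0 < n)
  have e3 : ∑ a ∈ A, ∑ b ∈ M, KZ z a b ≤ 2 * ((n : ℝ) ^ 2 / Real.log n ^ (2 * B + 1)) := by
    have e3 : ∑ a ∈ A, ∑ b ∈ M, KZ z a b = ∑ a ∈ A, ∑ b ∈ M, KL a b - ∑ a ∈ A, ∑ b ∈ M, (KL a b - KZ z a b) := by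
      rw [← sum_sub_distrib]
      apply sum_congr rfl
      intro a _
      rw [← sum_sub_distrib]
      apply sum_congr rfl
      intro b _
      ring
    rw [e3]
    have e4 := (abs_le.1 e1).1
    linarith
  have hKZ0 : ∀ a b, 0 ≤ KZ z a b := fun a b =>
    mul_nonneg (Pool.Agent.H373R2.T7.lamz_nonneg z _) (Pool.Agent.H373R2.T7.lamz_nonneg z _)
  have e5 : ∀ a ∈ A, (n : ℝ) / Real.log n ^ B ≤ ∑ b ∈ M, KZ z a b := by
    intro a ha
    obtain ⟨W, hWM, hWc, hWr⟩ := hW a ha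
    calc (n : ℝ) / Real.log n ^ B ≤ W.card := hWc
      _ = ∑ b ∈ W, (1 : ℝ) := by simp
      _ ≤ ∑ b ∈ W, KZ z a b := by
          apply sum_le_sum
          intro b hb
          obtain ⟨r1, r2⟩ := hWr b hb
          have f1 := lamz_ge_one r1 hzκ
          have f2 := lamz_ge_one r2 hzκ
          show 1 ≤ lamz z (a + b) * lamz z (Nat.dist a b)
          nlinarith
      _ ≤ ∑ b ∈ M, KZ z a b := sum_le_sum_of_subset_of_nonneg hWM (fun b _ _ => hKZ0 a b)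
  have e6 : ((n : ℝ) / Real.log n ^ B) * (n / Real.log n ^ B) ≤ ∑ a ∈ A, ∑ b ∈ M, KZ z a b := by
    calc ((n : ℝ) / Real.log n ^ B) * (n / Real.log n ^ B) ≤ A.card * (n / Real.log n ^ B) := by
          apply mul_le_mul_of_nonneg_right hAc
          positivity
      _ = ∑ a ∈ A, (n : ℝ) / Real.log n ^ B := by rw [sum_const, nsmul_eq_mul]
      _ ≤ _ := sum_le_sum e5
  have e7 : ((n : ℝ) / Real.log n ^ B) * (n / Real.log n ^ B) = Real.log n * ((n : ℝ) ^ 2 / Real.log n ^ (2 * B + 1)) := by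
    have hL : Real.log n ≠ 0 := by linarith
    field_simp
    ring
  have e8 : 0 < (n : ℝ) ^ 2 / Real.log n ^ (2 * B + 1) := by positivity
  nlinarith

/-- a walk of length at most `r`, whose vertices (except the first) are between `lo` and `n` -/
def Wk (Q : ℕ → ℕ → Prop) (lo n : ℕ) : ℕ → ℕ → ℕ → Prop
  | 0, a, b => a = b
  | r + 1, a, b => Wk Q lo n r a b ∨ ∃ v ∈ Icc lo n, Q a v ∧ Wk Q lo n r v b

lemma wk_zero (Q : ℕ → ℕ → Prop) (lo n : ℕ) (r a : ℕ) : Wk Q lo n r a a := by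
  induction r with
  | zero => rfl
  | succ r ih => exact Or.inl ih

lemma wk_cons {Q : ℕ → ℕ → Prop} {lo n r a v b : ℕ} (hv : lo ≤ v) (hv2 : v ≤ n) (h : Q a v) (h' : Wk Q lo n r v b) :
    Wk Q lo n (r + 1) a b := Or.inr ⟨v, mem_Icc.2 ⟨hv, hv2⟩, h, h'⟩

lemma wk_mono {Q : ℕ → ℕ → Prop} {lo n r s a b : ℕ} (hrs : r ≤ s) (h : Wk Q lo n r a b) : Wk Q lo n s a b := by
  induction s, hrs using Nat.le_induction with
  | base => exact h
  | succ s _ ih => exact Or.inl ih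

/-- the hypotheses on the relation of the graph -/
structure Hyp (Q : ℕ → ℕ → Prop) (n B : ℕ) (κ : ℝ) : Prop where
  symm : ∀ a b, Q a b → Q b a
  ofR : ∀ a b, R a b → Q a b
  set : ∀ v ≤ n, ∀ c ≤ n, Same c v → ∃ W ⊆ Icc 1 n, (n : ℝ) / Real.log n ^ B ≤ W.card ∧ ∀ w ∈ W,
      Q v w ∧ Opp v w ∧ Rs ((n : ℝ) ^ κ) (c + w) ∧ Rs ((n : ℝ) ^ κ) (Nat.dist c w)

/-- the further hypothesis for paths of length five -/
def HypD (Q : ℕ → ℕ → Prop) (n B : ℕ) : Prop :=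
  ∀ u ≤ n, 3 ∣ u → ∃ W ⊆ Icc 1 n, (n : ℝ) / Real.log n ^ B ≤ W.card ∧ ∀ w ∈ W, w + 3 ≤ n ∧ Q u w ∧ Opp u w ∧ Q w (w + 3)

lemma same_of_opp {u v a : ℕ} (h : Opp u a) (h1 : (u + v) % 2 = 1) (h2 : 3 ∣ v ↔ ¬ 3 ∣ u) : Same a v := by
  refine ⟨?_, ?_⟩
  · have := h.1
    omega
  · rw [Opp_three h, h2]

lemma same_of_opp2 {u v a b : ℕ} (h : Same u v) (ha : Opp u a) (hb : Opp v b) : Same a b := by
  refine ⟨?_, ?_⟩
  · have h1 := ha.1
    have h2 := hb.1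
    have h3 := h.1
    omega
  · rw [Opp_three ha, Opp_three hb, h.2]

/-- removing a small set from a large one -/
lemma card_sdiff_large {n B : ℕ} {W E : Finset ℕ} (hL : 2 ≤ Real.log n) (hn : 0 < n)
    (hW : (n : ℝ) / Real.log n ^ B ≤ W.card) (hE : (E.card : ℝ) ≤ n / Real.log n ^ (B + 1)) :
    (n : ℝ) / Real.log n ^ (B + 1) ≤ ((W \ E).card : ℝ) := by
  have h1 : W.card ≤ (W \ E).card + E.card := by
    have := le_card_sdiff E W
    omega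
  have h2 : (W.card : ℝ) ≤ (W \ E).card + E.card := by exact_mod_cast h1
  have hn0 : (0 : ℝ) < n := by exact_mod_cast hn
  have h3 : (n : ℝ) / Real.log n ^ B = Real.log n * (n / Real.log n ^ (B + 1)) := by
    have hL0 : Real.log n ≠ 0 := by linarith
    field_simp
    ring
  have h4 : 0 < (n : ℝ) / Real.log n ^ (B + 1) := by positivity
  nlinarith

lemma div_pow_mono {n B C : ℕ} (hL : 1 ≤ Real.log n) (h : B ≤ C) : (n : ℝ) / Real.log n ^ C ≤ n / Real.log n ^ B :=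
  div_le_div_of_nonneg_left (by positivity) (by positivity) (pow_le_pow_right₀ hL h)

lemma R_par {a b : ℕ} (h : R a b) : (a + b) % 2 = 1 := Nat.odd_iff.1 h.1.2

/-- the paths -/
theorem paths (hE : S_EST) (h2 : S_TWO) (h3 : S_BR) (B : ℕ) (κ : ℝ) (hκ : 0 < κ) : ∃ n₀ : ℕ, ∀ n : ℕ, n₀ ≤ n →
    ∀ Q : ℕ → ℕ → Prop, Hyp Q n B κ → ∀ lo ≤ 1, ∀ u v : ℕ, lo ≤ u → u ≤ n → lo ≤ v → v ≤ n →
      (Same u v → Wk Q lo n 4 u v) ∧
      ((u + v) % 2 = 1 → (3 ∣ v ↔ ¬ 3 ∣ u) → Wk Q lo n 3 u v) ∧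
      ((u + v) % 2 = 1 → ¬ 3 ∣ u → ¬ 3 ∣ v → Wk Q lo n 5 u v) ∧
      (u % 2 = v % 2 → 3 ∣ u → ¬ 3 ∣ v → Wk Q lo n 6 u v) ∧
      ((u + v) % 2 = 1 → 3 ∣ u → 3 ∣ v → Wk Q lo n 7 u v) ∧
      (HypD Q n B → u % 2 = v % 2 → 3 ∣ u → ¬ 3 ∣ v → Wk Q lo n 4 u v) ∧
      (HypD Q n B → (u + v) % 2 = 1 → 3 ∣ u → 3 ∣ v → Wk Q lo n 5 u v) := by
  classical
  obtain ⟨n₁, k1⟩ := h2 (B + 5)
  obtain ⟨n₂, k2⟩ := h3 (B + 5)
  obtain ⟨n₃, k3⟩ := one_step hE (B + 5) κ hκ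
  obtain ⟨n₄, k4⟩ := ev_log 2
  refine ⟨n₁ + n₂ + n₃ + n₄ + 1, fun n hn Q hQ lo hlo u v hul hu hvl hv => ?_⟩
  obtain ⟨E₁, -, hE1c, hE1⟩ := k1 n (by omega)
  obtain ⟨E₂, -, hE2c, hE2⟩ := k2 n (by omega)
  have hstep := k3 n (by omega)
  have hlog := k4 n (by omega)
  have hn0 : 0 < n := by omega
  have hn0' : (0 : ℝ) < n := by exact_mod_cast hn0
  have hL0 : 0 < Real.log n := by linarith
  have hL1 : 1 ≤ Real.log n := by linarith
  -- reaching `v` from a large set of vertices of its class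
  have hreach : ∀ v ≤ n, lo ≤ v → ∀ A ⊆ Icc 1 n, (n : ℝ) / Real.log n ^ (B + 5) ≤ A.card → (∀ c ∈ A, Same c v) →
      ∃ c ∈ A, Wk Q lo n 2 c v := by
    intro v hv hvl A hA hAc hS
    obtain ⟨c, hc, w, hw, hR⟩ := hstep A hA hAc ((Icc 1 n).filter (fun w => Q v w)) (filter_subset _ _) (by
      intro c hc
      obtain ⟨W, hW, hWc, hWm⟩ := hQ.set v hv c (mem_Icc.1 (hA hc)).2 (hS c hc)
      refine ⟨W, ?_, (div_pow_mono hL1 (by omega)).trans hWc, fun w hw => (hWm w hw).2.2⟩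
      intro w hw
      rw [mem_filter]
      exact ⟨hW hw, (hWm w hw).1⟩)
    rw [mem_filter, mem_Icc] at hw
    exact ⟨c, hc, wk_cons (by omega) hw.1.2 (hQ.ofR _ _ hR) (wk_cons hvl hv (hQ.symm _ _ hw.2) (wk_zero _ _ _ _ _))⟩
  -- a path of length two between two large sets of the same class
  have hreach2 : ∀ A ⊆ Icc 1 n, (n : ℝ) / Real.log n ^ (B + 4) ≤ A.card → ∀ S ⊆ Icc 1 n,
      (n : ℝ) / Real.log n ^ (B + 4) ≤ S.card →
      (∀ a ∈ A, ∀ x ∈ S, Same a x) → ∃ a ∈ A, ∃ x ∈ S, ∃ b, 1 ≤ b ∧ b ≤ n ∧ R a b ∧ R b x := by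
    intro A hA hAc S hS hSc hSame
    have h5 := card_sdiff_large hlog hn0 hAc hE1c
    have h6 : 0 < (A \ E₁).card := by
      have : (0 : ℝ) < ((A \ E₁).card : ℝ) := lt_of_lt_of_le (by positivity) h5
      exact_mod_cast this
    obtain ⟨a, ha⟩ := card_pos.1 h6
    rw [Finset.mem_sdiff] at ha
    obtain ⟨x, hx, b, hb, r1, r2⟩ := hE1 (Icc 1 n) (Finset.Subset.refl _) (by
      rw [Finset.sdiff_self, card_empty, Nat.cast_zero]
      positivity) a (hA ha.1) ha.2 S hS (hSame a ha.1) ((div_pow_mono hL1 (by omega)).trans hSc)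
    rw [mem_Icc] at hb
    exact ⟨a, ha.1, x, hx, b, hb.1, hb.2, r1, Pool.Agent.E8helper28.GB.R_symm r2⟩
  -- the vertices divisible by three outside `E₂`
  have hbr : ∀ a ∈ Icc 1 n, a ∉ E₂ → 3 ∣ a → ∃ F ⊆ Icc 1 n, (n : ℝ) / Real.log n ^ (B + 4) ≤ F.card ∧
      ∀ c ∈ F, ¬ 3 ∣ c ∧ c % 2 = a % 2 ∧ ∃ b, 1 ≤ b ∧ b ≤ n ∧ R a b ∧ R b c := by
    intro a ha haE h3a
    have ia := mem_Icc.1 ha
    have hbr := hE2 a ha haE h3a
    obtain ⟨F, hF⟩ : ∃ F, F = (Icc 1 n).filter (fun b => b + 3 ≤ n ∧ R a b ∧ (2 * b + 3).Prime) := ⟨_, rfl⟩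
    rw [← hF] at hbr
    have hFm : ∀ b ∈ F, 1 ≤ b ∧ b + 3 ≤ n ∧ R a b ∧ (2 * b + 3).Prime := by
      intro b hb
      rw [hF, mem_filter, mem_Icc] at hb
      exact ⟨hb.1.1, hb.2⟩
    refine ⟨F.image (fun b => b + 3), ?_, ?_, ?_⟩
    · intro c hc
      rw [mem_image] at hc
      obtain ⟨b, hb, rfl⟩ := hc
      have := hFm b hb
      rw [mem_Icc]
      omega
    · rw [card_image_of_injective _ (fun x y hxy => by simpa using hxy)]
      exact (div_pow_mono hL1 (by omega)).trans hbr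
    · intro c hc
      rw [mem_image] at hc
      obtain ⟨b, hb, rfl⟩ := hc
      obtain ⟨b1, b2, b3, b4⟩ := hFm b hb
      have h7 := R_par b3
      have h9 := Pool.Agent.E8helper28.GB.R_three ia.1 b1 b3 h3a
      refine ⟨fun h10 => h9 ((Nat.dvd_add_left (by norm_num : 3 ∣ 3)).1 h10), by omega, b, b1, by omega, b3, ?_⟩
      refine ⟨⟨?_, ?_⟩, ?_, ?_⟩
      · rw [show b + (b + 3) = 2 * b + 3 by ring]
        exact b4
      · exact ⟨b + 1, by ring⟩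
      · rw [Nat.dist_eq_sub_of_le (by omega), Nat.add_sub_cancel_left]
        exact Nat.prime_three
      · rw [Nat.dist_eq_sub_of_le (by omega), Nat.add_sub_cancel_left]
        exact ⟨1, rfl⟩
  have hSr : ∀ a, Same a a := fun a => ⟨rfl, Iff.rfl⟩
  obtain ⟨Wu, hWu, hWuc, hWum⟩ := hQ.set u hu u hu (hSr u)
  obtain ⟨Wv, hWv, hWvc, hWvm⟩ := hQ.set v hv v hv (hSr v)
  have hWuc4 : (n : ℝ) / Real.log n ^ (B + 4) ≤ Wu.card := (div_pow_mono hL1 (by omega)).trans hWuc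
  have hWvc4 : (n : ℝ) / Real.log n ^ (B + 4) ≤ Wv.card := (div_pow_mono hL1 (by omega)).trans hWvc
  have hWuc5 : (n : ℝ) / Real.log n ^ (B + 5) ≤ Wu.card := (div_pow_mono hL1 (by omega)).trans hWuc
  -- a path of length two from `u` to a vertex outside `E₂`
  have htyp : 3 ∣ u → ∃ c w, 1 ≤ c ∧ c ≤ n ∧ w ∈ Icc 1 n ∧ w ∉ E₂ ∧ 3 ∣ w ∧ w % 2 = u % 2 ∧ Q u c ∧ R c w := by
    intro h3u
    obtain ⟨c, hc, w, hw, hR⟩ := hstep Wu hWu hWuc5
      ((Icc 1 n).filter (fun w => 3 ∣ w ∧ w % 2 = u % 2 ∧ w ∉ E₂)) (filter_subset _ _) (by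
      intro c hc
      have ic := mem_Icc.1 (hWu hc)
      have oc := (hWum c hc).2.1
      obtain ⟨W, hW, hWc, hWm⟩ := hQ.set c ic.2 c ic.2 (hSr c)
      refine ⟨W \ E₂, ?_, card_sdiff_large hlog hn0 ((div_pow_mono hL1 (by omega)).trans hWc) hE2c,
        fun w hw => (hWm w (Finset.mem_sdiff.1 hw).1).2.2⟩
      intro w hw
      rw [Finset.mem_sdiff] at hw
      have ow := (hWm w hw.1).2.1
      have h5 := ow.1
      have h6 := oc.1
      have h7 : ¬ 3 ∣ c := fun h => (Opp_three oc).1 h h3u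
      rw [mem_filter]
      exact ⟨hW hw.1, (Opp_three ow).2 h7, by omega, hw.2⟩)
    have ic := mem_Icc.1 (hWu hc)
    rw [mem_filter] at hw
    exact ⟨c, w, ic.1, ic.2, hw.1, hw.2.2.2, hw.2.1, hw.2.2.1, (hWum c hc).1, hR⟩
  refine ⟨fun hS => ?_, fun hp ht => ?_, fun hp h3u h3v => ?_, fun hp h3u h3v => ?_, fun hp h3u h3v => ?_,
    fun hD hp h3u h3v => ?_, fun hD hp h3u h3v => ?_⟩
  · obtain ⟨a, ha, x, hx, b, hb1, hb2, r1, r2⟩ := hreach2 Wu hWu hWuc4 Wv hWv hWvc4 (by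
      intro a ha x hx
      exact same_of_opp2 hS (hWum a ha).2.1 (hWvm x hx).2.1)
    have ia := mem_Icc.1 (hWu ha)
    have ix := mem_Icc.1 (hWv hx)
    exact wk_cons (by omega) ia.2 (hWum a ha).1 (wk_cons (by omega) hb2 (hQ.ofR _ _ r1)
      (wk_cons (by omega) ix.2 (hQ.ofR _ _ r2) (wk_cons hvl hv (hQ.symm _ _ (hWvm x hx).1) (wk_zero _ _ _ _ _))))
  · obtain ⟨c, hc, hw⟩ := hreach v hv hvl Wu hWu hWuc5 (by
      intro c hc
      exact same_of_opp (hWum c hc).2.1 hp ht)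
    have ic := mem_Icc.1 (hWu hc)
    exact wk_cons (by omega) ic.2 (hWum c hc).1 hw
  · have h5 := card_sdiff_large hlog hn0 hWuc4 hE2c
    have h6 : 0 < (Wu \ E₂).card := by
      have : (0 : ℝ) < ((Wu \ E₂).card : ℝ) := lt_of_lt_of_le (by positivity) h5
      exact_mod_cast this
    obtain ⟨a, ha⟩ := card_pos.1 h6
    rw [Finset.mem_sdiff] at ha
    have oa := (hWum a ha.1).2.1
    have ia := mem_Icc.1 (hWu ha.1)
    have h3a : 3 ∣ a := (Opp_three oa).2 h3u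
    obtain ⟨F, hF, hFc, hFm⟩ := hbr a (hWu ha.1) ha.2 h3a
    obtain ⟨c, hc, hw⟩ := hreach v hv hvl F hF ((div_pow_mono hL1 (by omega)).trans hFc) (by
      intro c hc
      obtain ⟨b1, b2, -⟩ := hFm c hc
      have h8 := oa.1
      exact ⟨by omega, iff_of_false b1 h3v⟩)
    obtain ⟨-, -, b, c1, c2, c3, c4⟩ := hFm c hc
    have ic := mem_Icc.1 (hF hc)
    exact wk_cons (by omega) ia.2 (hWum a ha.1).1 (wk_cons (by omega) c2 (hQ.ofR _ _ c3)
      (wk_cons (by omega) ic.2 (hQ.ofR _ _ c4) hw))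
  · obtain ⟨d, a, d1, d2, ha, haE, h3a, hpa, hQd, hRd⟩ := htyp h3u
    have ia := mem_Icc.1 ha
    obtain ⟨F, hF, hFc, hFm⟩ := hbr a ha haE h3a
    obtain ⟨c, hc, hw⟩ := hreach v hv hvl F hF ((div_pow_mono hL1 (by omega)).trans hFc) (by
      intro c hc
      obtain ⟨b1, b2, -⟩ := hFm c hc
      exact ⟨by omega, iff_of_false b1 h3v⟩)
    obtain ⟨-, -, b, c1, c2, c3, c4⟩ := hFm c hc
    have ic := mem_Icc.1 (hF hc)
    exact wk_cons (by omega) d2 hQd (wk_cons (by omega) ia.2 (hQ.ofR _ _ hRd) (wk_cons (by omega) c2 (hQ.ofR _ _ c3)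
      (wk_cons (by omega) ic.2 (hQ.ofR _ _ c4) hw)))
  · obtain ⟨d, a, d1, d2, ha, haE, h3a, hpa, hQd, hRd⟩ := htyp h3u
    have ia := mem_Icc.1 ha
    obtain ⟨F, hF, hFc, hFm⟩ := hbr a ha haE h3a
    obtain ⟨c, hc, x, hx, y, y1, y2, r1, r2⟩ := hreach2 F hF hFc Wv hWv hWvc4 (by
      intro c hc x hx
      obtain ⟨b1, b2, -⟩ := hFm c hc
      have h8 := (hWvm x hx).2.1.1
      have h10 : ¬ 3 ∣ x := fun h => (Opp_three (hWvm x hx).2.1).1 h h3v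
      exact ⟨by omega, iff_of_false b1 h10⟩)
    obtain ⟨-, -, b, c1, c2, c3, c4⟩ := hFm c hc
    have ic := mem_Icc.1 (hF hc)
    have ix := mem_Icc.1 (hWv hx)
    exact wk_cons (by omega) d2 hQd (wk_cons (by omega) ia.2 (hQ.ofR _ _ hRd) (wk_cons (by omega) c2 (hQ.ofR _ _ c3)
      (wk_cons (by omega) ic.2 (hQ.ofR _ _ c4) (wk_cons (by omega) y2 (hQ.ofR _ _ r1)
      (wk_cons (by omega) ix.2 (hQ.ofR _ _ r2) (wk_cons hvl hv (hQ.symm _ _ (hWvm x hx).1) (wk_zero _ _ _ _ _)))))))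
  · obtain ⟨D, hDs, hDc, hDm⟩ := hD u hu h3u
    obtain ⟨c, hc, hw⟩ := hreach v hv hvl (D.image (fun b => b + 3)) (by
      intro c hc
      rw [mem_image] at hc
      obtain ⟨b, hb, rfl⟩ := hc
      have h5 := mem_Icc.1 (hDs hb)
      have h6 := (hDm b hb).1
      rw [mem_Icc]
      omega) (by
      rw [card_image_of_injective _ (fun x y hxy => by simpa using hxy)]
      exact (div_pow_mono hL1 (by omega)).trans hDc) (by
      intro c hc
      rw [mem_image] at hc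
      obtain ⟨b, hb, rfl⟩ := hc
      obtain ⟨b1, b2, b3, b4⟩ := hDm b hb
      have h7 := b3.1
      have h9 : ¬ 3 ∣ b := fun h => (Opp_three b3).1 h h3u
      exact ⟨by omega, iff_of_false (fun h10 => h9 ((Nat.dvd_add_left (by norm_num : 3 ∣ 3)).1 h10)) h3v⟩)
    rw [mem_image] at hc
    obtain ⟨b, hb, rfl⟩ := hc
    obtain ⟨b1, b2, b3, b4⟩ := hDm b hb
    have h5 := mem_Icc.1 (hDs hb)
    exact wk_cons (by omega) h5.2 b2 (wk_cons (by omega) b1 b4 hw)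
  · obtain ⟨D, hDs, hDc, hDm⟩ := hD u hu h3u
    obtain ⟨a, ha, x, hx, b, hb1, hb2, r1, r2⟩ := hreach2 (D.image (fun b => b + 3)) (by
      intro c hc
      rw [mem_image] at hc
      obtain ⟨b, hb, rfl⟩ := hc
      have h5 := mem_Icc.1 (hDs hb)
      have h6 := (hDm b hb).1
      rw [mem_Icc]
      omega) (by
      rw [card_image_of_injective _ (fun x y hxy => by simpa using hxy)]
      exact (div_pow_mono hL1 (by omega)).trans hDc) Wv hWv hWvc4 (by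
      intro c hc x hx
      rw [mem_image] at hc
      obtain ⟨b, hb, rfl⟩ := hc
      obtain ⟨b1, b2, b3, b4⟩ := hDm b hb
      have h7 := b3.1
      have h8 := (hWvm x hx).2.1.1
      have h9 : ¬ 3 ∣ b := fun h => (Opp_three b3).1 h h3u
      have h10 : ¬ 3 ∣ x := fun h => (Opp_three (hWvm x hx).2.1).1 h h3v
      exact ⟨by omega, iff_of_false (fun h11 => h9 ((Nat.dvd_add_left (by norm_num : 3 ∣ 3)).1 h11)) h10⟩)
    rw [mem_image] at ha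
    obtain ⟨d, hd, rfl⟩ := ha
    obtain ⟨b1, b2, b3, b4⟩ := hDm d hd
    have h5 := mem_Icc.1 (hDs hd)
    have ix := mem_Icc.1 (hWv hx)
    exact wk_cons (by omega) h5.2 b2 (wk_cons (by omega) b1 b4 (wk_cons (by omega) hb2 (hQ.ofR _ _ r1)
      (wk_cons (by omega) ix.2 (hQ.ofR _ _ r2) (wk_cons hvl hv (hQ.symm _ _ (hWvm x hx).1) (wk_zero _ _ _ _ _)))))

end Pool.Agent.Helper40.GR
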