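import Pool.Graph.R_seed8.Y882.GX.Sm
import Pool.Graph.R_pool_sql_team_seeded_1acbe0a2.Y677.KP.Apply
import Pool.Graph.R_pool_sql_team_seeded_3997aac3.Results.MP_7b7e48_nt.LargeFactorsFewExceptions

set_option autoImplicit false

/-!
# Every number has an almost prime neighbour outside a thin set
-/

namespace Pool.Agent.Helper40.GR

open Finset Filter

/-- `a + b` and `|a - b|` are an odd prime and an odd number with at most `r` prime factors, all at least `(2 a) ^ θ` -/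
def Lk (r : ℕ) (θ : ℝ) (a b : ℕ) : Prop :=
  a ≠ b ∧ ∃ p m : ℕ, p.Prime ∧ Odd p ∧ ((a + b = p ∧ Nat.dist a b = m) ∨ (a + b = m ∧ Nat.dist a b = p)) ∧
    2 ≤ m ∧ Odd m ∧ m.primeFactorsList.length ≤ r ∧ ∀ q : ℕ, q.Prime → q ∣ m → ((2 * a : ℕ) : ℝ) ^ θ ≤ q

/-- thin sets -/
def Thin (Bad : ℕ → Prop) : Prop := ∃ x₀ : ℕ, ∀ x : ℕ, x₀ ≤ x → ∀ S ⊆ Icc 1 x, (∀ b ∈ S, Bad b) →
  (S.card : ℝ) ≤ x / Real.log x ^ 3

lemma pigeon (a : ℕ) (S Bd : Finset ℕ) (h : 2 * Bd.card + 1 < S.card) :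
    ∃ p ∈ S, p ≠ a ∧ Nat.dist a p ∉ Bd := by
  classical
  by_contra hc
  push Not at hc
  have h1 : S ⊆ (insert 0 Bd).image (fun b => a + b) ∪ Bd.image (fun b => a - b) := by
    intro p hp
    rw [mem_union, mem_image, mem_image]
    by_cases e : p = a
    · exact Or.inl ⟨0, mem_insert_self _ _, by omega⟩
    · have h2 := hc p hp e
      rcases le_total a p with h3 | h3
      · rw [Nat.dist_eq_sub_of_le h3] at h2
        exact Or.inl ⟨p - a, mem_insert_of_mem h2, by omega⟩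
      · rw [Nat.dist_eq_sub_of_le_right h3] at h2
        exact Or.inr ⟨a - p, h2, by omega⟩
  have h2 := (card_le_card h1).trans (card_union_le _ _)
  have h3 : ((insert 0 Bd).image (fun b => a + b)).card ≤ Bd.card + 1 :=
    card_image_le.trans (card_insert_le _ _)
  have h4 : (Bd.image (fun b => a - b)).card ≤ Bd.card := card_image_le
  omega

/-- the link -/
lemma link_of (r : ℕ) (θ : ℝ) (a p : ℕ) (hp : p.Prime) (ho : Odd p) (hpa : p ≠ a) (h2 : p + 2 ≤ 2 * a)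
    (hm : (2 * a - p).primeFactorsList.length ≤ r)
    (hq : ∀ q : ℕ, q.Prime → q ∣ 2 * a - p → ((2 * a : ℕ) : ℝ) ^ θ ≤ q) :
    1 ≤ Nat.dist a p ∧ Nat.dist a p < a ∧ Lk r θ a (Nat.dist a p) := by
  have hp0 := hp.two_le
  obtain ⟨k, hk⟩ := ho
  rcases lt_or_gt_of_ne hpa with h | h
  · have e : Nat.dist a p = a - p := Nat.dist_eq_sub_of_le_right h.le
    rw [e]
    refine ⟨by omega, by omega, by omega, p, 2 * a - p, hp, ⟨k, hk⟩, Or.inr ⟨by omega, ?_⟩, by omega,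
      ⟨a - k - 1, by omega⟩, hm, hq⟩
    rw [Nat.dist_eq_sub_of_le_right (by omega)]
    omega
  · have e : Nat.dist a p = p - a := Nat.dist_eq_sub_of_le h.le
    rw [e]
    refine ⟨by omega, by omega, by omega, p, 2 * a - p, hp, ⟨k, hk⟩, Or.inl ⟨by omega, ?_⟩, by omega,
      ⟨a - k - 1, by omega⟩, hm, hq⟩
    rw [Nat.dist_eq_sub_of_le_right (by omega)]
    omega

/-- comparison of the two counts -/
lemma ev_cmp (δ : ℝ) (hδ : 0 < δ) : ∀ᶠ a : ℕ in atTop,
    2 * ((a : ℝ) / Real.log a ^ 3) + 2 < δ * ((2 * a : ℕ) : ℝ) / Real.log ((2 * a : ℕ) : ℝ) ^ 2 - 1 := by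
  have h1 : ∀ᶠ a : ℕ in atTop, 16 / δ ≤ Real.log (a : ℝ) :=
    tendsto_natCast_atTop_atTop.eventually (Real.tendsto_log_atTop.eventually_ge_atTop _)
  have h2 : ∀ᶠ a : ℕ in atTop, Real.log (a : ℝ) ^ 2 ≤ δ / 24 * (a : ℝ) := by
    have h := (Real.isLittleO_pow_log_id_atTop (n := 2)).bound (show (0 : ℝ) < δ / 24 by positivity)
    have h' := tendsto_natCast_atTop_atTop (R := ℝ) |>.eventually h
    filter_upwards [h', eventually_ge_atTop 1] with a ha ha1
    have ha0 : (0 : ℝ) ≤ a := Nat.cast_nonneg _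
    rw [Real.norm_of_nonneg (by positivity), id, Real.norm_of_nonneg ha0] at ha
    exact ha
  filter_upwards [h1, h2, eventually_ge_atTop 3] with a e1 e2 e3
  have ha3 : (3 : ℝ) ≤ a := by exact_mod_cast e3
  have ha0 : (0 : ℝ) < a := by linarith
  set L := Real.log (a : ℝ) with hL
  have hL0 : 0 < L := Real.log_pos (by linarith)
  have hl2 : Real.log ((2 * a : ℕ) : ℝ) ≤ 2 * L := by
    have : Real.log ((2 * a : ℕ) : ℝ) ≤ Real.log ((a : ℝ) ^ 2) := by
      apply Real.log_le_log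
      · push_cast; linarith
      · push_cast; nlinarith
    rw [Real.log_pow] at this
    push_cast at this ⊢
    exact this
  have hl0 : 0 < Real.log ((2 * a : ℕ) : ℝ) := Real.log_pos (by push_cast; linarith)
  have e4 : δ * ((2 * a : ℕ) : ℝ) / (2 * L) ^ 2 ≤ δ * ((2 * a : ℕ) : ℝ) / Real.log ((2 * a : ℕ) : ℝ) ^ 2 := by
    apply div_le_div_of_nonneg_left (by positivity) (by positivity)
    exact pow_le_pow_left₀ hl0.le hl2 2
  have e5 : δ * ((2 * a : ℕ) : ℝ) / (2 * L) ^ 2 = δ / 2 * (a / L ^ 2) := by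
    push_cast
    field_simp
  have e6 : 2 * ((a : ℝ) / L ^ 3) ≤ δ / 8 * (a / L ^ 2) := by
    have : 2 * ((a : ℝ) / L ^ 3) = (2 / L) * (a / L ^ 2) := by
      field_simp
    rw [this]
    apply mul_le_mul_of_nonneg_right _ (by positivity)
    rw [div_le_iff₀ hδ] at e1
    rw [div_le_iff₀ hL0]
    linarith
  have e7 : 3 ≤ δ / 8 * (a / L ^ 2) := by
    rw [mul_div_assoc', le_div_iff₀ (by positivity)]
    nlinarith
  have e8 : 0 < δ * (a / L ^ 2) := by positivity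
  linarith

open Classical in
/-- **Large numbers, three prime factors.** -/
theorem large3 (Bad : ℕ → Prop) (hB : Thin Bad) : ∃ N₀ : ℕ, ∀ a : ℕ, N₀ ≤ a →
    ∃ b : ℕ, 1 ≤ b ∧ b < a ∧ ¬ Bad b ∧ Lk 3 (1 / 9) a b := by
  obtain ⟨δ, hδ, N0, H⟩ := Pool.Agent.Y882.GX.smallEvery 3 1 (49 / 100) (by norm_num) (by norm_num) le_rfl
    (by norm_num)
  obtain ⟨x₀, hx⟩ := hB
  have ev1 : ∀ᶠ a : ℕ in atTop, (2 : ℝ) ≤ ((2 * a : ℕ) : ℝ) ^ ((49 / 100 / 4 : ℝ) - 1 / 9) := by
    have h := tendsto_rpow_atTop (show (0 : ℝ) < (49 / 100 / 4 : ℝ) - 1 / 9 by norm_num)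
    have h2 : Tendsto (fun a : ℕ => ((2 * a : ℕ) : ℝ)) atTop atTop := by
      refine tendsto_natCast_atTop_atTop.comp ?_
      exact tendsto_id.const_mul_atTop' (by norm_num)
    exact h2.eventually (h.eventually_ge_atTop 2)
  obtain ⟨N1, hN1⟩ := eventually_atTop.1 ((ev_cmp δ hδ).and (ev1.and ((eventually_ge_atTop (max N0 x₀)).and
    (eventually_ge_atTop 8))))
  refine ⟨N1, fun a ha => ?_⟩
  obtain ⟨e1, e2, e3, e4⟩ := hN1 a ha
  have h1 := H (2 * a) (by have := (le_max_left _ _).trans e3; omega) (even_two_mul a)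
  set S := (range (2 * a)).filter (fun p : ℕ => p.Prime ∧ ((2 * a : ℕ) : ℝ) ^ (1 : ℝ) / 4 < p ∧
    (p : ℝ) < ((2 * a : ℕ) : ℝ) ^ (1 : ℝ) ∧ (2 * a - p).primeFactorsList.length ≤ 3 ∧
    ∀ q : ℕ, q.Prime → q ∣ (2 * a - p) → ((2 * a : ℕ) : ℝ) ^ (49 / 100 / 4 : ℝ) / 2 ≤ q) with hS
  have h2 : δ * ((2 * a : ℕ) : ℝ) / Real.log ((2 * a : ℕ) : ℝ) ^ 2 ≤ S.card := by
    refine le_trans ?_ h1
    rw [Real.rpow_one, mul_div_assoc]
    apply mul_le_mul_of_nonneg_right _ (by positivity)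
    have := Pool.Agent.Y882.one_le_sgs (2 * a)
    nlinarith
  set Bd := (Icc 1 a).filter (fun b => Bad b) with hBd
  have h3 : (Bd.card : ℝ) ≤ a / Real.log a ^ 3 :=
    hx a ((le_max_right _ _).trans e3) Bd (filter_subset _ _) (fun b hb => (mem_filter.1 hb).2)
  have h4 : 2 * Bd.card + 1 < (S.erase (2 * a - 1)).card := by
    have h5 : S.card ≤ (S.erase (2 * a - 1)).card + 1 := by
      have := pred_card_le_card_erase (s := S) (a := 2 * a - 1)
      omega
    have h6 : (S.card : ℝ) ≤ ((S.erase (2 * a - 1)).card : ℝ) + 1 := by exact_mod_cast h5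
    have h7 : (2 * (Bd.card : ℝ) + 1) < ((S.erase (2 * a - 1)).card : ℝ) := by linarith
    exact_mod_cast h7
  obtain ⟨p, hp, hpa, hpB⟩ := pigeon a _ Bd h4
  rw [mem_erase, hS, mem_filter, mem_range] at hp
  obtain ⟨hp1, hp2, hp3, hp4, hp5, hp6, hp7⟩ := hp
  have ho : Odd p := by
    rcases hp3.eq_two_or_odd' with h | h
    · exfalso
      rw [h, Real.rpow_one] at hp4
      have : (16 : ℝ) ≤ ((2 * a : ℕ) : ℝ) := by
        push_cast
        have : (8 : ℝ) ≤ a := by exact_mod_cast e4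
        linarith
      push_cast at hp4 this
      linarith
    · exact h
  obtain ⟨g1, g2, g3⟩ := link_of 3 (1 / 9) a p hp3 ho hpa (by omega) hp6 (by
    intro q hq hqm
    refine le_trans ?_ (hp7 q hq hqm)
    have hpos : (0 : ℝ) < ((2 * a : ℕ) : ℝ) := by
      push_cast
      have : (8 : ℝ) ≤ a := by exact_mod_cast e4
      linarith
    rw [le_div_iff₀ (by norm_num)]
    calc ((2 * a : ℕ) : ℝ) ^ (1 / 9 : ℝ) * 2 ≤ ((2 * a : ℕ) : ℝ) ^ (1 / 9 : ℝ) *
        ((2 * a : ℕ) : ℝ) ^ ((49 / 100 / 4 : ℝ) - 1 / 9) :=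
          mul_le_mul_of_nonneg_left e2 (by positivity)
      _ = ((2 * a : ℕ) : ℝ) ^ (49 / 100 / 4 : ℝ) := by
          rw [← Real.rpow_add hpos]
          congr 1
          ring)
  refine ⟨Nat.dist a p, g1, g2, ?_, g3⟩
  intro hb
  apply hpB
  rw [hBd, mem_filter, mem_Icc]
  exact ⟨⟨g1, g2.le⟩, hb⟩

open Classical in
/-- primes `q` with at most three prime factors in `q + 2 a`, outside a thin set, `a` fixed -/
theorem small_core (Bad : ℕ → Prop) (hB : Thin Bad) (a s : ℕ) (ha : 1 ≤ a) (M : ℕ) : ∃ q : ℕ, M < q ∧ q.Prime ∧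
    (∀ p : ℕ, p.Prime → p ∣ q + 2 * a → (q : ℝ) ^ (1 / (5 : ℝ)) < (p : ℝ)) ∧
    (q + 2 * a).primeFactorsList.length ≤ 3 ∧ ¬ Bad (s + q) := by
  obtain ⟨x₀, hx⟩ := hB
  set R : ℕ → Set ℕ := fun t => {m | (∀ p : ℕ, p.Prime → p ∣ m → (m : ℝ) ^ (1 / (t : ℝ)) < (p : ℝ)) ∧
    ∀ p : ℕ, p.Prime → p ∣ m + 2 * a → (m : ℝ) ^ (1 / (t : ℝ)) < (p : ℝ)} with hR
  set P : Set ℕ := {q | q.Prime ∧ (∀ p : ℕ, p.Prime → p ∣ q + 2 * a → (q : ℝ) ^ (1 / (5 : ℝ)) < (p : ℝ)) ∧
    (q + 2 * a).primeFactorsList.length ≤ 3} with hP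
  obtain ⟨⟨κ, hκ, hK⟩, -, -⟩ := Pool.Agent.Y677.KP.lin_p 1 (2 * a) one_pos (by rw [Nat.cast_one]; exact isCoprime_one_left) (by
      rintro ⟨-, h⟩
      have : (2 * (a : ℤ)) = 0 := h
      omega)
    (fun p hp => by
      rcases hp.eq_two_or_odd with h2 | h2
      · subst h2
        refine ⟨1, by norm_num, ?_⟩
        push_cast
        omega
      · have hp3 : 3 ≤ p := by
          have := hp.two_le
          omega
        by_cases h : (p : ℤ) ∣ 1 + 2 * a
        · refine ⟨2, ?_, ?_⟩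
          · intro hd
            have := Nat.le_of_dvd (by norm_num) hd
            omega
          · intro hd
            push_cast at hd
            have h3 : (p : ℤ) ∣ 1 := by
              have := dvd_sub hd h
              have e : ((1 : ℤ) * 2 + 2 * (a : ℤ)) - (1 + 2 * a) = 1 := by ring
              rwa [show ((p : ℤ) ∣ 1) = ((p : ℤ) ∣ ((1 : ℤ) * 2 + 2 * (a : ℤ)) - (1 + 2 * a)) by rw [e]]
            have := Int.le_of_dvd one_pos h3
            omega
        · refine ⟨1, ?_, ?_⟩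
          · intro hd
            have := Nat.le_of_dvd (by norm_num) hd
            omega
          · intro hd
            apply h
            push_cast at hd
            simpa using hd)
    (fun m => m + 2 * a)
    (fun m _ => by push_cast; ring) R P
    (fun m hm => ⟨fun p hp hd => Pool.Agent.Y677.KP.rough_prime 5 m p (by norm_num) hm.1 hp hd,
      fun p hp hd => by exact_mod_cast hm.2.1 p hp hd⟩)
    (fun t _ m hm => hm)
    (fun m hm _ h2 h3 => ⟨hm, fun q hq hd => by exact_mod_cast h2 q hq hd, h3⟩)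
  obtain ⟨X₁, hX₁⟩ := eventually_atTop.1 hK
  obtain ⟨X₂, hX₂⟩ := eventually_atTop.1 (tendsto_natCast_atTop_atTop.eventually
    (Real.tendsto_log_atTop.eventually_gt_atTop (3 / κ)))
  set X : ℕ := X₁ + X₂ + x₀ + M + s + 3 with hX
  have f1 := hX₁ X (by omega)
  have f2 : 3 / κ < Real.log (X : ℝ) := hX₂ X (by omega)
  have hXr : (3 : ℝ) ≤ X := by exact_mod_cast (by omega : 3 ≤ X)
  have hX0 : (0 : ℝ) < X := by linarith
  have hL0 : 0 < Real.log (X : ℝ) := Real.log_pos (by linarith)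
  by_contra hc
  push Not at hc
  set T := ((Ioc X (2 * X)).filter (fun m => m ∈ P)) with hT
  have g1 : (T.image (fun q => s + q)).card = T.card := card_image_of_injective _ (fun x y h => Nat.add_left_cancel h)
  have g2 := hx (3 * X) (by omega) (T.image (fun q => s + q)) (by
    intro b hb
    rw [mem_image] at hb
    obtain ⟨q, hq, rfl⟩ := hb
    rw [hT, mem_filter, mem_Ioc] at hq
    rw [mem_Icc]
    omega) (by
    intro b hb
    rw [mem_image] at hb
    obtain ⟨q, hq, rfl⟩ := hb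
    rw [hT, mem_filter, mem_Ioc] at hq
    obtain ⟨⟨h1, h2⟩, h3, h4, h5⟩ := hq
    exact hc q (by omega) h3 h4 h5)
  rw [g1] at g2
  have g3 : κ * X / Real.log (X : ℝ) ^ 2 ≤ T.card := by
    unfold Pool.Agent.TH977.PW.N at f1
    convert f1
  have g4 : ((3 * X : ℕ) : ℝ) / Real.log ((3 * X : ℕ) : ℝ) ^ 3 ≤ 3 * X / Real.log (X : ℝ) ^ 3 := by
    push_cast
    apply div_le_div_of_nonneg_left (by positivity) (by positivity)
    apply pow_le_pow_left₀ hL0.le
    exact Real.log_le_log hX0 (by linarith)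
  have g5 : κ * X / Real.log (X : ℝ) ^ 2 ≤ 3 * X / Real.log (X : ℝ) ^ 3 := g3.trans (g2.trans g4)
  rw [div_le_div_iff₀ (by positivity) (by positivity)] at g5
  rw [div_lt_iff₀ hκ] at f2
  have g6 : 3 * X * Real.log (X : ℝ) ^ 2 < κ * X * Real.log (X : ℝ) ^ 3 := by
    have : κ * X * Real.log (X : ℝ) ^ 3 = (Real.log (X : ℝ) * κ) * (X * Real.log (X : ℝ) ^ 2) := by ring
    rw [this]
    have h7 : 0 < X * Real.log (X : ℝ) ^ 2 := by positivity
    nlinarith
  linarith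

/-- **Fixed numbers, three prime factors.** -/
theorem small3 (Bad : ℕ → Prop) (hB : Thin Bad) (a : ℕ) : ∃ b : ℕ, 1 ≤ b ∧ ¬ Bad b ∧ Lk 3 (1 / 9) a b := by
  rcases Nat.eq_zero_or_pos a with rfl | ha
  · obtain ⟨q, hq1, hq2, -, -, hq5⟩ := small_core Bad hB 1 0 le_rfl 2
    rw [zero_add] at hq5
    have ho : Odd q := by
      rcases hq2.eq_two_or_odd' with h | h
      · omega
      · exact h
    refine ⟨q, by omega, hq5, by omega, q, q, hq2, ho, Or.inl ⟨by omega, ?_⟩, hq2.two_le, ho, ?_, ?_⟩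
    · rw [Nat.dist_eq_sub_of_le (by omega)]
      omega
    · rw [Nat.primeFactorsList_prime hq2]
      simp
    · intro r hr _
      rw [mul_zero, Nat.cast_zero, Real.zero_rpow (by norm_num)]
      positivity
  · obtain ⟨q, hq1, hq2, hq3, hq4, hq5⟩ := small_core Bad hB a a ha (2 * a)
    have ho : Odd q := by
      rcases hq2.eq_two_or_odd' with h | h
      · omega
      · exact h
    have hom : Odd (q + 2 * a) := by
      obtain ⟨k, hk⟩ := ho
      exact ⟨k + a, by omega⟩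
    refine ⟨a + q, by omega, hq5, by omega, q, q + 2 * a, hq2, ho, Or.inr ⟨by omega, ?_⟩, by omega, hom, hq4, ?_⟩
    · rw [Nat.dist_eq_sub_of_le (by omega)]
      omega
    · intro p hp hpd
      refine le_trans ?_ (hq3 p hp hpd).le
      have hq1' : ((2 * a : ℕ) : ℝ) ≤ (q : ℝ) := by exact_mod_cast hq1.le
      have hq0 : (1 : ℝ) ≤ (q : ℝ) := by exact_mod_cast hq2.one_lt.le
      calc ((2 * a : ℕ) : ℝ) ^ (1 / 9 : ℝ) ≤ (q : ℝ) ^ (1 / 9 : ℝ) :=
            Real.rpow_le_rpow (by positivity) hq1' (by norm_num)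
        _ ≤ (q : ℝ) ^ (1 / 5 : ℝ) := Real.rpow_le_rpow_of_exponent_le hq0 (by norm_num)

/-- **All numbers, three prime factors.** -/
theorem every3 (Bad : ℕ → Prop) (hB : Thin Bad) : ∃ N : ℕ, ∀ a : ℕ,
    ∃ b : ℕ, 1 ≤ b ∧ (b ≤ a ∨ b ≤ N) ∧ ¬ Bad b ∧ Lk 3 (1 / 9) a b := by
  obtain ⟨N₀, h0⟩ := large3 Bad hB
  choose f hf using small3 Bad hB
  refine ⟨(range N₀).sup f, fun a => ?_⟩
  rcases lt_or_ge a N₀ with h | h
  · exact ⟨f a, (hf a).1, Or.inr (le_sup (f := f) (mem_range.2 h)), (hf a).2.1, (hf a).2.2⟩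
  · obtain ⟨b, h1, h2, h3, h4⟩ := h0 a h
    exact ⟨b, h1, Or.inl h2.le, h3, h4⟩

open Classical in
/-- **Two large prime factors, few exceptions.** -/
theorem every2 (Bad : ℕ → Prop) (hB : Thin Bad) : ∃ (E : Set ℕ) (K : ℝ) (B : ℕ),
    (∀ x : ℕ, 3 ≤ x → (((Icc 1 x).filter fun u => u ∈ E).card : ℝ) ≤ K * Real.log x ^ B) ∧
    ∀ a : ℕ, 2 * a ∉ E → ∃ b : ℕ, 1 ≤ b ∧ b < a ∧ ¬ Bad b ∧ Lk 2 (129 / 500) a b := by
  obtain ⟨B, K, H⟩ := Pool.Agent.Results.MP_7b7e48_nt.LargeFactorsFewExceptions.result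
  obtain ⟨x₀, hx⟩ := hB
  have hδ : (0 : ℝ) < 1 / 200 := by norm_num
  have ev1 : ∀ᶠ a : ℕ in atTop, (3 : ℝ) ≤ ((2 * a : ℕ) : ℝ) ^ (129 / 500 : ℝ) := by
    have h := tendsto_rpow_atTop (show (0 : ℝ) < (129 / 500 : ℝ) by norm_num)
    have h2 : Tendsto (fun a : ℕ => ((2 * a : ℕ) : ℝ)) atTop atTop := by
      refine tendsto_natCast_atTop_atTop.comp ?_
      exact tendsto_id.const_mul_atTop' (by norm_num)
    exact h2.eventually (h.eventually_ge_atTop 3)
  obtain ⟨N1, hN1⟩ := eventually_atTop.1 ((ev_cmp (1 / 200) hδ).and (ev1.and (eventually_ge_atTop (max x₀ 8))))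
  set Ex : Set ℕ := {n | Even n ∧
    ¬ 1 / 200 * (Pool.Agent.Results.MP_7b7e48_nt.LargeFactorsFewExceptions.sing n * n / Real.log n ^ 2) ≤
      Pool.Agent.Results.MP_7b7e48_nt.LargeFactorsFewExceptions.chen n ((n : ℝ) ^ (129 / 500 : ℝ))} with hEx
  obtain ⟨E, hE⟩ : ∃ E : Set ℕ, E = Ex ∪ {u | u < 2 * N1 + 1} := ⟨_, rfl⟩
  refine ⟨E, |K| + (2 * N1 + 1), B, ?_, ?_⟩
  · intro x hx3
    obtain ⟨Ef, h1, h2⟩ := H x hx3
    have hxr : (3 : ℝ) ≤ x := by exact_mod_cast hx3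
    have hlX : 1 ≤ Real.log x := by
      rw [Real.le_log_iff_exp_le (by linarith)]
      linarith [Real.exp_one_lt_d9]
    have hlB : 1 ≤ Real.log x ^ B := one_le_pow₀ hlX
    have hsub : (Icc 1 x).filter (fun u => u ∈ E) ⊆ Ef ∪ range (2 * N1 + 1) := by
      intro u hu
      rw [mem_filter, mem_Icc, hE] at hu
      rw [mem_union, mem_range]
      rcases hu.2 with h | h
      · left
        by_contra hne
        exact h.2 (h2 u hu.1.1 hu.1.2 h.1 hne).1
      · exact Or.inr h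
    have h3 : (((Icc 1 x).filter (fun u => u ∈ E)).card : ℝ) ≤
        Ef.card + (2 * N1 + 1) := by
      have := (card_le_card hsub).trans (card_union_le _ _)
      rw [card_range] at this
      exact_mod_cast this
    refine h3.trans ?_
    have h4 : K * Real.log x ^ B ≤ |K| * Real.log x ^ B :=
      mul_le_mul_of_nonneg_right (le_abs_self K) (by linarith)
    have h5 : (2 * (N1 : ℝ) + 1) ≤ (2 * N1 + 1) * Real.log x ^ B := le_mul_of_one_le_right (by positivity) hlB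
    rw [add_mul]
    linarith
  · intro a ha
    rw [hE] at ha
    have ha1 : N1 ≤ a := by
      by_contra h
      apply ha
      right
      show 2 * a < 2 * N1 + 1
      omega
    have ha2 : 1 / 200 * (Pool.Agent.Results.MP_7b7e48_nt.LargeFactorsFewExceptions.sing (2 * a) *
        ((2 * a : ℕ) : ℝ) / Real.log ((2 * a : ℕ) : ℝ) ^ 2) ≤
        Pool.Agent.Results.MP_7b7e48_nt.LargeFactorsFewExceptions.chen (2 * a)
          (((2 * a : ℕ) : ℝ) ^ (129 / 500 : ℝ)) := by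
      by_contra h
      exact ha (Or.inl ⟨even_two_mul a, h⟩)
    obtain ⟨e1, e2, e3⟩ := hN1 a ha1
    unfold Pool.Agent.Results.MP_7b7e48_nt.LargeFactorsFewExceptions.chen at ha2
    set S := (range (2 * a)).filter (fun p => p.Prime ∧ ((2 * a - p).Prime ∨ ∃ q r : ℕ, q.Prime ∧ r.Prime ∧
      2 * a - p = q * r) ∧ ∀ q : ℕ, q.Prime → q ∣ 2 * a - p → ((2 * a : ℕ) : ℝ) ^ (129 / 500 : ℝ) ≤ q) with hS
    have h2 : 1 / 200 * ((2 * a : ℕ) : ℝ) / Real.log ((2 * a : ℕ) : ℝ) ^ 2 ≤ S.card := by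
      refine le_trans ?_ ha2
      have hs : 1 ≤ Pool.Agent.Results.MP_7b7e48_nt.LargeFactorsFewExceptions.sing (2 * a) :=
        Pool.Agent.Q148.BA.sing_ge (2 * a)
      rw [mul_div_assoc]
      apply mul_le_mul_of_nonneg_left _ hδ.le
      apply div_le_div_of_nonneg_right _ (by positivity)
      exact le_mul_of_one_le_left (by positivity) hs
    set Bd := (Icc 1 a).filter (fun b => Bad b) with hBd
    have h3 : (Bd.card : ℝ) ≤ a / Real.log a ^ 3 :=
      hx a ((le_max_left _ _).trans e3) Bd (filter_subset _ _) (fun b hb => (mem_filter.1 hb).2)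
    have h4 : 2 * Bd.card + 1 < (S.erase 2).card := by
      have h5 : S.card ≤ (S.erase 2).card + 1 := by
        have := pred_card_le_card_erase (s := S) (a := 2)
        omega
      have h6 : (S.card : ℝ) ≤ ((S.erase 2).card : ℝ) + 1 := by exact_mod_cast h5
      have h7 : (2 * (Bd.card : ℝ) + 1) < ((S.erase 2).card : ℝ) := by linarith
      exact_mod_cast h7
    obtain ⟨p, hp, hpa, hpB⟩ := pigeon a _ Bd h4
    rw [mem_erase, hS, mem_filter, mem_range] at hp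
    obtain ⟨hp1, hp2, hp3, hp4, hp5⟩ := hp
    have ho : Odd p := by
      rcases hp3.eq_two_or_odd' with h | h
      · exact absurd h hp1
      · exact h
    have hm2 : 2 ≤ 2 * a - p ∧ (2 * a - p).primeFactorsList.length ≤ 2 := by
      rcases hp4 with h | ⟨q, r, hq, hr, h⟩
      · exact ⟨h.two_le, by rw [Nat.primeFactorsList_prime h]; simp⟩
      · refine ⟨?_, ?_⟩
        · rw [h]
          have := Nat.mul_le_mul hq.two_le hr.one_lt.le
          omega
        · rw [h, (Nat.perm_primeFactorsList_mul hq.ne_zero hr.ne_zero).length_eq, List.length_append,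
            Nat.primeFactorsList_prime hq, Nat.primeFactorsList_prime hr]
          simp
    obtain ⟨g1, g2, g3⟩ := link_of 2 (129 / 500) a p hp3 ho hpa (by omega) hm2.2 hp5
    refine ⟨Nat.dist a p, g1, g2, ?_, g3⟩
    intro hb
    apply hpB
    rw [hBd, mem_filter, mem_Icc]
    exact ⟨⟨g1, g2.le⟩, hb⟩

end Pool.Agent.Helper40.GR
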