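import Pool.Agent.Helper40.GR.Sieve
import Pool.Graph.R_pool_sql_team_seeded_b677cdb8.E8helper98.GB.Step

set_option autoImplicit false

/-!
# The sets of neighbours needed for the relaxed Goldbach graphs
-/

namespace Pool.Agent.Helper40.GR

open Finset Filter
open Pool.Agent.E8helper66.GB (Same)
open Pool.Agent.E8helper98.GB (ev ev_log log_tendsto)

/-- `m ≠ 0` and all the prime factors of `m` are larger than `x` -/
def Rs (x : ℝ) (m : ℕ) : Prop := m ≠ 0 ∧ ∀ p : ℕ, p.Prime → p ∣ m → x < p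

lemma Ro_Rs {x x' : ℝ} {m : ℤ} {k : ℕ} (h : Ro x m) (hx : x' < x) (hk : k = m.natAbs) : Rs x' k := by
  subst hk
  refine ⟨Int.natAbs_ne_zero.2 h.1, fun p hp hpm => lt_of_lt_of_le hx (h.2 p hp ?_)⟩
  exact Int.natCast_dvd.2 hpm

/-- admissibility of at most three forms -/
lemma adm_of (k : ℕ) (hk : k ≤ 3) (a b : Fin k → ℤ) (h2 : ∃ n : ℤ, ¬ (2 : ℤ) ∣ n * ∏ i, (a i * n + b i))
    (h3 : ∃ n : ℤ, ¬ (3 : ℤ) ∣ n * ∏ i, (a i * n + b i)) (ha : ∀ i, 1 ≤ |a i| ∧ |a i| ≤ 2) (p : ℕ) (hp : p.Prime) :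
    ∃ n : ℤ, ¬ (p : ℤ) ∣ n * ∏ i, (a i * n + b i) := by
  classical
  by_cases hp5 : p < 5
  · have h4 : p ≠ 4 := by
      rintro rfl
      norm_num at hp
    have := hp.two_le
    have h6 : p = 2 ∨ p = 3 := by omega
    rcases h6 with rfl | rfl
    · exact_mod_cast h2
    · exact_mod_cast h3
  · push Not at hp5
    by_contra hcon
    push Not at hcon
    have hpz : Prime (p : ℤ) := Nat.prime_iff_prime_int.1 hp
    have key : ∀ n : ℕ, ∃ o : Option (Fin k), (match o with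
        | none => (p : ℤ) ∣ (n : ℤ)
        | some i => (p : ℤ) ∣ a i * (n : ℤ) + b i) := by
      intro n
      rcases hpz.dvd_or_dvd (hcon (n : ℤ)) with h | h
      · exact ⟨none, h⟩
      · obtain ⟨i, -, hi⟩ := (Prime.dvd_finset_prod_iff hpz _).1 h
        exact ⟨some i, hi⟩
    choose f hf using key
    obtain ⟨x, hx, y, hy, hxy, hfxy⟩ := exists_ne_map_eq_of_card_lt_of_maps_to (s := range p)
      (t := (univ : Finset (Option (Fin k)))) (f := f) (by
        rw [card_range, card_univ, Fintype.card_option, Fintype.card_fin]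
        omega) (fun _ _ => by simp)
    rw [mem_range] at hx hy
    have hd : (p : ℤ) ∣ (x : ℤ) - y := by
      have h1 := hf x
      have h2 := hf y
      rw [hfxy] at h1
      cases hfy : f y with
      | none =>
        rw [hfy] at h1 h2
        exact dvd_sub h1 h2
      | some i =>
        rw [hfy] at h1 h2
        have h5 : (p : ℤ) ∣ a i * ((x : ℤ) - y) := by
          have := dvd_sub h1 h2
          have e : (a i * (x : ℤ) + b i) - (a i * (y : ℤ) + b i) = a i * ((x : ℤ) - y) := by ring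
          rwa [e] at this
        rcases hpz.dvd_or_dvd h5 with h6 | h6
        · exfalso
          obtain ⟨l1, l2⟩ := ha i
          have h7 := Int.le_of_dvd (by omega) ((dvd_abs _ _).2 h6)
          omega
        · exact h6
    have h8 : (x : ℤ) - y = 0 := by
      apply Int.eq_zero_of_abs_lt_dvd hd
      rw [abs_lt]
      omega
    omega

/-- the sieve for `n / 16 ≤ N ≤ n` -/
lemma gen (k : ℕ) (hk : k ≤ 3) : ∃ (B : ℕ) (κ : ℝ), 0 < κ ∧ ∃ n₀ : ℕ, ∀ n : ℕ, n₀ ≤ n → ∀ N : ℕ, n ≤ 16 * N → N ≤ n →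
    ∀ a b : Fin k → ℤ, (∀ i, 1 ≤ |a i| ∧ |a i| ≤ 2 ∧ |b i| ≤ 4 * n) →
    (∃ n : ℤ, ¬ (2 : ℤ) ∣ n * ∏ i, (a i * n + b i)) → (∃ n : ℤ, ¬ (3 : ℤ) ∣ n * ∏ i, (a i * n + b i)) →
    ∃ P : Finset ℕ, (n : ℝ) / Real.log n ^ B ≤ P.card ∧ ∀ p ∈ P, N < p ∧ p ≤ 2 * N ∧ p.Prime ∧
      ∀ i, Ro ((n : ℝ) ^ κ + 1) (a i * (p : ℤ) + b i) := by
  obtain ⟨B, δ, hδ, h⟩ := sieve k
  obtain ⟨N₀, hN₀⟩ := eventually_atTop.1 (h 2)
  obtain ⟨m1, h1⟩ := ev_log (max 16 (Real.log 16 * 4 + 4 * Real.log 2 / δ + 4))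
  refine ⟨B + 1, δ / 2, by positivity, 16 * N₀ + m1 + 3000, fun n hn N hnN hNn a b hab h2 h3 => ?_⟩
  have hNb : N₀ ≤ N := by omega
  have hN100 : 100 ≤ N := by omega
  have hNi : (100 : ℤ) ≤ N := by exact_mod_cast hN100
  have hni : (n : ℤ) ≤ 16 * N := by exact_mod_cast hnN
  obtain ⟨P, hP, hPm⟩ := hN₀ N hNb a b (by
    intro i
    obtain ⟨c1, c2, c3⟩ := hab i
    constructor
    · nlinarith
    · nlinarith) (adm_of k hk a b h2 h3 (fun i => ⟨(hab i).1, (hab i).2.1⟩))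
  have hlog := h1 n (by omega)
  have hl1 : 16 ≤ Real.log n := (le_max_left _ _).trans hlog
  have hl2 : Real.log 16 * 4 + 4 * Real.log 2 / δ + 4 ≤ Real.log n := (le_max_right _ _).trans hlog
  have hn0 : (0 : ℝ) < n := by exact_mod_cast (by omega : 0 < n)
  have hN0 : (0 : ℝ) < N := by exact_mod_cast (by omega : 0 < N)
  have hN1 : (1 : ℝ) < N := by exact_mod_cast (by omega : 1 < N)
  have hnN' : (n : ℝ) ≤ 16 * N := by exact_mod_cast hnN
  have hNn' : (N : ℝ) ≤ n := by exact_mod_cast hNn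
  have hlN : Real.log N ≤ Real.log n := Real.log_le_log hN0 hNn'
  have hlN0 : 0 < Real.log N := Real.log_pos hN1
  refine ⟨P, ?_, ?_⟩
  · rw [div_le_iff₀ (by positivity)]
    have e1 : Real.log N ^ B ≤ Real.log n ^ B := pow_le_pow_left₀ hlN0.le hlN B
    have e2 : (N : ℝ) ≤ Real.log n ^ B * P.card := hP.trans (mul_le_mul_of_nonneg_right e1 (by positivity))
    calc (n : ℝ) ≤ 16 * N := hnN'
      _ ≤ 16 * (Real.log n ^ B * P.card) := by linarith
      _ ≤ Real.log n * (Real.log n ^ B * P.card) := by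
          apply mul_le_mul_of_nonneg_right hl1
          positivity
      _ = P.card * Real.log n ^ (B + 1) := by ring
  · intro p hp
    obtain ⟨g1, g2, g3, g4⟩ := hPm p hp
    refine ⟨g1, g2, g3, fun i => ⟨(g4 i).1, fun q hq hqd => ?_⟩⟩
    refine le_trans ?_ ((g4 i).2 q hq hqd)
    -- `n ^ (δ/2) + 1 ≤ N ^ δ`
    have e3 : Real.log n - Real.log 16 ≤ Real.log N := by
      rw [sub_le_iff_le_add, ← Real.log_mul (by positivity) (by norm_num)]
      apply Real.log_le_log hn0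
      linarith
    have e4 : (1 : ℝ) ≤ (n : ℝ) ^ (δ / 2) := Real.one_le_rpow (by linarith [hNn']) (by positivity)
    have e5 : 2 * (n : ℝ) ^ (δ / 2) ≤ (N : ℝ) ^ δ := by
      have e6 : 2 * (n : ℝ) ^ (δ / 2) = Real.exp (Real.log 2 + Real.log n * (δ / 2)) := by
        rw [Real.exp_add, Real.exp_log (by norm_num), ← Real.rpow_def_of_pos hn0]
      rw [e6, Real.rpow_def_of_pos hN0]
      apply Real.exp_le_exp.2
      have e7 : 4 * Real.log 2 / δ * δ = 4 * Real.log 2 := by field_simp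
      have e8 : (Real.log 16 * 4 + 4 * Real.log 2 / δ + 4) * δ ≤ Real.log n * δ := mul_le_mul_of_nonneg_right hl2 hδ.le
      have e9 : (Real.log n - Real.log 16) * δ ≤ Real.log N * δ := mul_le_mul_of_nonneg_right e3 hδ.le
      have e10 : 0 ≤ Real.log 16 * δ := mul_nonneg (Real.log_nonneg (by norm_num)) hδ.le
      have e11 : 0 < Real.log 2 := Real.log_pos (by norm_num)
      nlinarith
    linarith

end Pool.Agent.Helper40.GR
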