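import Pool.Agent.Helper40.GR.Bridge
import Pool.Graph.R_pool_sql_team_seeded_b677cdb8.E8helper66.GB.U3
import Pool.Graph.R_pool_sql_team_seeded_b677cdb8.E8helper66.GB.Estw
import Pool.Graph.R_pool_sql_team_seeded_b677cdb8.E8helper66.GB.Quad
import Pool.Graph.R_pool_sql_team_seeded_b677cdb8.E8helper77.GB.Rec
import Pool.Graph.R_pool_sql_team_seeded_b677cdb8.E8helper64.GB.Rel
import Pool.Graph.R_pool_sql_team_seeded_b677cdb8.E8helper23.GB.Core
import Pool.Graph.R_pool_sql_team_seeded_b677cdb8.E8helper64.GB.Pig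
import Pool.Graph.R_pool_sql_team_seeded_b677cdb8.E8helper62.GB.CS
import Pool.Graph.R_pool_sql_team_seeded_b677cdb8.E8helper97.GB.CST
import Pool.Graph.R_pool_sql_team_seeded_b677cdb8.E8helper75.GB.Tii
import Pool.Graph.R_pool_sql_team_seeded_b677cdb8.E8helper97.GB.TI2
import Pool.Graph.R_pool_sql_team_seeded_b677cdb8.E8helper77.GB.Lam
import Pool.Graph.R_pool_sql_team_seeded_b677cdb8.E8helper70.GB.LZ
import Pool.Graph.R_pool_sql_team_seeded_b677cdb8.E8helper81.GB.Est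
import Pool.Graph.R_pool_sql_team_seeded_b677cdb8.E8helper64.GB.Est3
import Pool.Graph.R_pool_sql_team_seeded_b677cdb8.E8helper54.GB.Loc
import Pool.Graph.R_pool_sql_team_seeded_b677cdb8.E8helper98.GB.Two
import Pool.Graph.R_pool_sql_team_seeded_b677cdb8.E8helper77.GB.Loc3
import Pool.Graph.R_pool_sql_team_seeded_b677cdb8.E8helper98.GB.Br

set_option autoImplicit false

/-!
# The paths between the halves, without hypotheses
-/

namespace Pool.Agent.Helper40.GR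

open Finset Filter
open Pool.Agent Pool.Agent.E8helper66.GB

/-- all the paths -/
theorem all_paths : ∃ (B : ℕ) (κ : ℝ), 0 < κ ∧ ∃ n₀ : ℕ, ∀ n : ℕ, n₀ ≤ n → ∀ y : ℕ, (y : ℝ) ≤ (n : ℝ) ^ κ →
    Pth (Q1 y) n B ∧ HypD (Q1 y) n B ∧ Pth (Q2 y) n B := by
  have hPIG := E8helper64.GB.t_PIG
  have hREC := E8helper77.GB.t_REC
  have hCORE := E8helper23.GB.t_CORE hREC (E8helper64.GB.t_REL hREC) t_QUAD
  have hTII := E8helper75.GB.t_TII E8helper62.GB.t_CS hCORE hPIG E8helper97.GB.t_CST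
  have hTI := E8helper97.GB.t_TI hPIG
  have hU3 := t_U3 (E8helper77.GB.t_LAM hTII hTI) (E8helper70.GB.t_LZ hTII hTI)
  have hE := E8helper81.GB.t_EST hU3
  have hW := t_ESTW hE
  have hTWO := E8helper98.GB.t_TWO hW E8helper54.GB.t_LOC
  have hBR := E8helper98.GB.t_BR hW (E8helper64.GB.t_EST3 hU3) E8helper77.GB.t_LOC3
  obtain ⟨B, κ, hκ, n₁, h1⟩ := hyps
  obtain ⟨n₂, h2⟩ := paths hE hTWO hBR B κ hκ
  refine ⟨B, κ, hκ, n₁ + n₂, fun n hn y hy => ?_⟩
  obtain ⟨p1, p2, p3⟩ := h1 n (by omega) y hy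
  exact ⟨h2 n (by omega) (Q1 y) p1, p2, h2 n (by omega) (Q2 y) p3⟩

lemma half_add {a b : ℕ} (ha : Even a) (hb : Even b) : (a + b) / 2 = a / 2 + b / 2 := by
  obtain ⟨x, rfl⟩ := ha
  obtain ⟨y, rfl⟩ := hb
  omega

lemma half_dist {a b : ℕ} (ha : Even a) (hb : Even b) : Nat.dist a b / 2 = Nat.dist (a / 2) (b / 2) := by
  obtain ⟨x, rfl⟩ := ha
  obtain ⟨y, rfl⟩ := hb
  simp only [Nat.dist]
  omega

lemma dist_two (a b : ℕ) : Nat.dist (2 * a) (2 * b) / 2 = Nat.dist a b := by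
  simp only [Nat.dist]
  omega

lemma add_two (a b : ℕ) : (2 * a + 2 * b) / 2 = a + b := by omega

lemma three_half {a : ℕ} (ha : Even a) : 3 ∣ a / 2 ↔ 3 ∣ a := by
  obtain ⟨x, rfl⟩ := ha
  omega

end Pool.Agent.Helper40.GR
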