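import Pool.Agent.Helper40.GR.Cases

set_option autoImplicit false

/-!
# The two relaxed relations, and walks in graphs
-/

namespace Pool.Agent.Helper40.GR

open Finset Filter
open Pool.Agent.E8helper66.GB
open Pool.Agent.E8helper98.GB (ev ev_log)
open Pool.Agent.R521.GG (R)

/-- odd, at least three, and not a proper multiple of a prime `p ≤ y` -/
def Rg (y m : ℕ) : Prop := m % 2 = 1 ∧ 3 ≤ m ∧ ∀ p : ℕ, p.Prime → p ≤ y → p ∣ m → m = p

/-- the difference is a prime -/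
def Q1 (y a b : ℕ) : Prop := ((Nat.dist a b).Prime ∧ Odd (Nat.dist a b)) ∧ Rg y (a + b)

/-- the sum is a prime -/
def Q2 (y a b : ℕ) : Prop := ((a + b).Prime ∧ Odd (a + b)) ∧ Rg y (Nat.dist a b)

lemma Rg_of_Rs {x : ℝ} {y m : ℕ} (h : Rs x m) (hy : (y : ℝ) ≤ x) (hx : 3 ≤ x) (h1 : m ≠ 1) : Rg y m := by
  have h2 : m % 2 = 1 := by
    by_contra hcon
    have := h.2 2 Nat.prime_two (by omega)
    norm_num at this
    linarith
  refine ⟨h2, by omega, fun p hp hpy hpm => ?_⟩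
  exfalso
  have h3 := h.2 p hp hpm
  have h4 : (p : ℝ) ≤ y := by exact_mod_cast hpy
  linarith

lemma Rg_of_prime {y m : ℕ} (h : m.Prime) (ho : Odd m) : Rg y m := by
  obtain ⟨k, hk⟩ := ho
  have := h.two_le
  refine ⟨by omega, by omega, fun p hp _ hpm => ?_⟩
  exact ((Nat.prime_dvd_prime_iff_eq hp h).1 hpm).symm

lemma Rs_mono {x x' : ℝ} {m : ℕ} (h : Rs x m) (hx : x' ≤ x) : Rs x' m :=
  ⟨h.1, fun p hp hpm => lt_of_le_of_lt hx (h.2 p hp hpm)⟩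

/-- both relations satisfy the hypotheses of the path theorem -/
theorem hyps : ∃ (B : ℕ) (κ : ℝ), 0 < κ ∧ ∃ n₀ : ℕ, ∀ n : ℕ, n₀ ≤ n → ∀ y : ℕ, (y : ℝ) ≤ (n : ℝ) ^ κ →
    Hyp (Q1 y) n B κ ∧ HypD (Q1 y) n B ∧ Hyp (Q2 y) n B κ := by
  obtain ⟨B₁, κ₁, hκ₁, n₁, h1⟩ := setI
  obtain ⟨B₂, κ₂, hκ₂, n₂, h2⟩ := setD
  obtain ⟨B₃, κ₃, hκ₃, n₃, h3⟩ := setII
  obtain ⟨κ, hκ⟩ : ∃ κ, κ = min κ₁ (min κ₂ κ₃) := ⟨_, rfl⟩
  have hκ0 : 0 < κ := by
    rw [hκ]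
    exact lt_min hκ₁ (lt_min hκ₂ hκ₃)
  have l1 : κ ≤ κ₁ := by
    rw [hκ]
    exact min_le_left _ _
  have l2 : κ ≤ κ₂ := by
    rw [hκ]
    exact (min_le_right _ _).trans (min_le_left _ _)
  have l3 : κ ≤ κ₃ := by
    rw [hκ]
    exact (min_le_right _ _).trans (min_le_right _ _)
  obtain ⟨n₄, h4⟩ := ev_rpow κ hκ0
  obtain ⟨n₅, h5⟩ := ev_log 1
  refine ⟨B₁ + B₂ + B₃, κ, hκ0, n₁ + n₂ + n₃ + n₄ + n₅ + 1, fun n hn y hy => ?_⟩
  have hn1 : (1 : ℝ) ≤ n := by exact_mod_cast (by omega : 1 ≤ n)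
  have hx := h4 n (by omega)
  have hL := h5 n (by omega)
  have m1 : (n : ℝ) ^ κ ≤ (n : ℝ) ^ κ₁ := Real.rpow_le_rpow_of_exponent_le hn1 l1
  have m2 : (n : ℝ) ^ κ ≤ (n : ℝ) ^ κ₂ := Real.rpow_le_rpow_of_exponent_le hn1 l2
  have m3 : (n : ℝ) ^ κ ≤ (n : ℝ) ^ κ₃ := Real.rpow_le_rpow_of_exponent_le hn1 l3
  refine ⟨⟨?_, ?_, ?_⟩, ?_, ⟨?_, ?_, ?_⟩⟩
  · rintro a b ⟨g1, g2⟩
    unfold Q1
    rw [Nat.dist_comm, add_comm]
    exact ⟨g1, g2⟩
  · rintro a b ⟨g1, g2⟩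
    exact ⟨g2, Rg_of_prime g1.1 g1.2⟩
  · intro v hv c hc hcv
    obtain ⟨W, hW, hWc, hWm⟩ := h1 n (by omega) v hv c hc hcv
    refine ⟨W, hW, (div_pow_mono hL (by omega)).trans hWc, fun w hw => ?_⟩
    obtain ⟨g1, g2, g3, g4, g5, g6⟩ := hWm w hw
    exact ⟨⟨g1, Rg_of_Rs (Rs_mono g3 m1) hy hx (by omega)⟩, g4, Rs_mono g5 m1, Rs_mono g6 m1⟩
  · intro u hu h3u
    obtain ⟨W, hW, hWc, hWm⟩ := h2 n (by omega) u hu h3u
    refine ⟨W, hW, (div_pow_mono hL (by omega)).trans hWc, fun w hw => ?_⟩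
    obtain ⟨g0, g1, g2, g3, g4, g5⟩ := hWm w hw
    refine ⟨g0, ⟨g1, Rg_of_Rs (Rs_mono g3 m2) hy hx (by omega)⟩, g4, ?_, ?_⟩
    · rw [Nat.dist_eq_sub_of_le (by omega), Nat.add_sub_cancel_left]
      exact ⟨Nat.prime_three, ⟨1, rfl⟩⟩
    · rw [show w + (w + 3) = 2 * w + 3 by ring]
      exact Rg_of_Rs (Rs_mono g5 m2) hy hx (by omega)
  · rintro a b ⟨g1, g2⟩
    unfold Q2
    rw [Nat.dist_comm, add_comm]
    exact ⟨g1, g2⟩
  · rintro a b ⟨g1, g2⟩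
    exact ⟨g1, Rg_of_prime g2.1 g2.2⟩
  · intro v hv c hc hcv
    obtain ⟨W, hW, hWc, hWm⟩ := h3 n (by omega) v hv c hc hcv
    refine ⟨W, hW, (div_pow_mono hL (by omega)).trans hWc, fun w hw => ?_⟩
    obtain ⟨g1, g2, g3, g4, g5, g6⟩ := hWm w hw
    exact ⟨⟨g1, Rg_of_Rs (Rs_mono g3 m3) hy hx (by omega)⟩, g4, Rs_mono g5 m3, Rs_mono g6 m3⟩

lemma walk_of {V : Type} (G : SimpleGraph V) (lo n : ℕ) (φ : ℕ → V) (Q : ℕ → ℕ → Prop)
    (hadj : ∀ a ∈ Icc lo n, ∀ b ∈ Icc lo n, Q a b → G.Adj (φ a) (φ b)) (c r : ℕ) :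
    ∀ a ∈ Icc lo n, Wk Q lo n r a c → ∃ w : G.Walk (φ a) (φ c), w.length ≤ r := by
  induction r with
  | zero =>
    intro a ha hp
    have h1 : a = c := hp
    subst h1
    exact ⟨SimpleGraph.Walk.nil, le_rfl⟩
  | succ r ih =>
    intro a ha hp
    rcases hp with hp | ⟨v, hv, hR, hp⟩
    · obtain ⟨w, hw⟩ := ih a ha hp
      exact ⟨w, by omega⟩
    · obtain ⟨w, hw⟩ := ih v hv hp
      refine ⟨SimpleGraph.Walk.cons (hadj a ha v hv hR) w, ?_⟩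
      rw [SimpleGraph.Walk.length_cons]
      omega

/-- odd, and not a proper multiple of three, five, seven -/
def OQ (m : ℕ) : Prop := m % 2 = 1 ∧ (3 ∣ m → m = 3) ∧ (5 ∣ m → m = 5) ∧ (7 ∣ m → m = 7)

lemma struct {x y : ℕ} (hs : OQ (x + y)) (hd : OQ (Nat.dist x y)) :
    (x + y) % 2 = 1 ∧ (3 ∣ x → 3 ∣ y → x = 0 ∨ y = 0) ∧ (¬ 3 ∣ x → ¬ 3 ∣ y → x + y = 3 ∨ Nat.dist x y = 3) := by
  refine ⟨hs.1, ?_, ?_⟩
  · intro h1 h2
    have := hs.2.1 (Dvd.dvd.add h1 h2)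
    omega
  · intro h1 h2
    by_cases h3 : 3 ∣ x + y
    · exact Or.inl (hs.2.1 h3)
    · right
      apply hd.2.1
      have e1 : x % 3 = 1 ∨ x % 3 = 2 := by omega
      have e2 : y % 3 = 1 ∨ y % 3 = 2 := by omega
      have e3 : x % 3 = y % 3 := by omega
      rcases le_total x y with hxy | hxy
      · rw [Nat.dist_eq_sub_of_le hxy]
        exact (Nat.modEq_iff_dvd' hxy).1 e3
      · rw [Nat.dist_eq_sub_of_le_right hxy]
        exact (Nat.modEq_iff_dvd' hxy).1 e3.symm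

/-- a vertex which is not on an edge between two numbers not divisible by three -/
def Spec (a : ℕ) : Prop := a % 3 = 1 ∧ a % 5 = 1 ∧ a % 7 = 5 ∧ 10 ≤ a

lemma spec_adj {a y : ℕ} (ha : Spec a) (h3 : ¬ 3 ∣ y) (hs : OQ (a + y)) (hd : OQ (Nat.dist a y)) : False := by
  obtain ⟨h1, h2, h3', h4⟩ := ha
  obtain ⟨-, -, h5⟩ := struct hs hd
  rcases h5 (by omega) h3 with h6 | h6
  · omega
  · simp only [Nat.dist] at h6
    have h7 : y = a + 3 ∨ y + 3 = a := by omega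
    rcases h7 with h7 | h7
    · have h8 : 5 ∣ a + y := by omega
      have := hs.2.2.1 h8
      omega
    · have h8 : 7 ∣ a + y := by omega
      have := hs.2.2.2 h8
      omega

/-- a walk between two special vertices of opposite parity has length at least five -/
lemma low {V : Type} (G : SimpleGraph V) (h : V → ℕ)
    (hG : ∀ u v, G.Adj u v → OQ (h u + h v) ∧ OQ (Nat.dist (h u) (h v))) (h0 : ∀ u v, G.Adj u v → h u = 0 → (h v).Prime)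
    (u v : V) (hu : Spec (h u)) (hv : Spec (h v)) (hu2 : h u % 2 = 1) (hv2 : h v % 2 = 0)
    (hup : ¬ (h u).Prime) (hvp : ¬ (h v).Prime) (w : G.Walk u v) : 5 ≤ w.length := by
  have hpar : ∀ x y, G.Adj x y → (h x + h y) % 2 = 1 := fun x y hxy => (hG x y hxy).1.1
  by_contra hcon
  push Not at hcon
  match w with
  | .nil => omega
  | .cons h1 .nil =>
    exact spec_adj hu (by have := hv.1; omega) (hG _ _ h1).1 (hG _ _ h1).2
  | .cons h1 (.cons h2 .nil) =>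
    have a1 := hpar _ _ h1
    have a2 := hpar _ _ h2
    omega
  | .cons (v := x) h1 (.cons (v := y) h2 (.cons h3 .nil)) =>
    have a1 := hG _ _ h1
    have a2 := hG _ _ h2
    have a3 := hG _ _ h3
    have b1 : 3 ∣ h x := by
      by_contra hc
      exact spec_adj hu hc a1.1 a1.2
    have b2 : 3 ∣ h y := by
      by_contra hc
      refine spec_adj hv hc ?_ ?_
      · rw [add_comm]; exact a3.1
      · rw [Nat.dist_comm]; exact a3.2
    rcases (struct a2.1 a2.2).2.1 b1 b2 with h4 | h4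
    · exact hup (h0 _ _ h1.symm h4)
    · exact hvp (h0 _ _ h3 h4)
  | .cons h1 (.cons h2 (.cons h3 (.cons h4 .nil))) =>
    have a1 := hpar _ _ h1
    have a2 := hpar _ _ h2
    have a3 := hpar _ _ h3
    have a4 := hpar _ _ h4
    omega
  | .cons h1 (.cons h2 (.cons h3 (.cons h4 (.cons h5 w')))) =>
    simp only [SimpleGraph.Walk.length_cons] at hcon
    omega

/-- the bridge to graphs, upper bounds -/
lemma up {V : Type} (G : SimpleGraph V) (lo n : ℕ) (φ : ℕ → V) (h : V → ℕ) (Q : ℕ → ℕ → Prop)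
    (hφ : ∀ m ∈ Icc lo n, h (φ m) = m) (hinj : Function.Injective h) (hr : ∀ v, h v ∈ Icc lo n)
    (hadj : ∀ a ∈ Icc lo n, ∀ b ∈ Icc lo n, Q a b → G.Adj (φ a) (φ b)) (u v : V) (r : ℕ)
    (hw : Wk Q lo n r (h u) (h v)) : G.edist u v ≤ r := by
  obtain ⟨w, hw⟩ := walk_of G lo n φ Q hadj (h v) r (h u) (hr u) hw
  have e1 : φ (h u) = u := hinj (hφ _ (hr u))
  have e2 : φ (h v) = v := hinj (hφ _ (hr v))
  have h1 : G.edist (φ (h u)) (φ (h v)) ≤ r := (SimpleGraph.edist_le w).trans (by exact_mod_cast hw)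
  rwa [e1, e2] at h1

end Pool.Agent.Helper40.GR
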