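import Pool.Graph.R_pool_sql_team_seeded_b0a926ef.R498.MP.ULin
import Pool.Agent.Helper40.GR.Main

set_option autoImplicit false

/-!
# Numbers `y` outside a sparse set with many `b` for which `b - y`, `b + y` are primes
-/

namespace Pool.Agent.Helper40.GR

open Finset Filter
open Pool.Agent.R498.MP (linU APZ)
open Pool.Agent.R521.GG (R dg)
open Pool.Agent.E8helper98.GB (ev ev_log)

/-- a set of `k` numbers without differences in `E` -/
lemma greedy (E : Finset ℕ) (k : ℕ) : ∃ S : Finset ℕ, S.card = k ∧ (∀ s ∈ S, s ≤ k * k * (E.card + 1)) ∧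
    ∀ s ∈ S, ∀ s' ∈ S, s < s' → s' - s ∉ E := by
  classical
  induction k with
  | zero => exact ⟨∅, rfl, by simp, by simp⟩
  | succ k ih =>
    obtain ⟨S, hS, hb, hd⟩ := ih
    obtain ⟨M, hM⟩ : ∃ M, M = k * k * (E.card + 1) := ⟨_, rfl⟩
    rw [← hM] at hb
    have h1 : ((S ×ˢ E).image (fun q => q.1 + q.2)).card < (Ioc M (M + (k * E.card + 1))).card := by
      rw [Nat.card_Ioc]
      have := card_image_le (s := S ×ˢ E) (f := fun q => q.1 + q.2)
      rw [card_product, hS] at this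
      omega
    obtain ⟨x, hx, hxn⟩ := exists_mem_notMem_of_card_lt_card h1
    rw [mem_Ioc] at hx
    have hxS : x ∉ S := fun h => by
      have := hb x h
      omega
    refine ⟨insert x S, ?_, ?_, ?_⟩
    · rw [card_insert_of_notMem hxS, hS]
    · have hbig : M + (k * E.card + 1) ≤ (k + 1) * (k + 1) * (E.card + 1) := by
        rw [hM]
        nlinarith
      intro s hs
      rw [mem_insert] at hs
      rcases hs with rfl | hs
      · omega
      · have := hb s hs
        omega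
    · intro s hs s' hs' hlt hE
      rw [mem_insert] at hs hs'
      rcases hs with rfl | hs
      · rcases hs' with rfl | hs'
        · omega
        · have := hb s' hs'
          omega
      · rcases hs' with rfl | hs'
        · apply hxn
          rw [mem_image]
          exact ⟨(s, s' - s), mem_product.2 ⟨hs, hE⟩, by show s + (s' - s) = s'; omega⟩
        · exact hd s hs s' hs' hlt hE

/-- the link: `y` is divisible by six -/
theorem link : ∃ (K B : ℕ), ∀ (E : Finset ℕ) (Y : ℕ), 6 * (K * K * (E.card + 1)) ≤ Y →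
    ∃ n₀ : ℕ, ∀ n : ℕ, n₀ ≤ n → ∃ y, 1 ≤ y ∧ y ≤ Y ∧ 6 ∣ y ∧ y ∉ E ∧ (n : ℝ) / Real.log n ^ B ≤ (dg (Icc 1 n) y : ℝ) := by
  classical
  obtain ⟨K, B, δ, hδ, h⟩ := linU 0 1 squarefree_one 2
  refine ⟨K, B + 1, fun E Y hY => ?_⟩
  obtain ⟨S₀, hS₀, hSb, hSd⟩ := greedy (E.image (fun t => t / 6)) K
  have hEc : (E.image (fun t => t / 6)).card ≤ E.card := card_image_le
  obtain ⟨r, hr⟩ := h 0
  obtain ⟨N₀, hN₀⟩ := eventually_atTop.1 (hr (S₀.image (fun s => 12 * s)) (by
    rw [card_image_of_injective _ (fun x y hxy => by simpa using hxy), hS₀]))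
  obtain ⟨m1, h1⟩ := ev_log 4
  refine ⟨2 * N₀ + m1 + 10, fun n hn => ?_⟩
  obtain ⟨N, hN⟩ : ∃ N, N = n / 2 := ⟨_, rfl⟩
  obtain ⟨H, hHS, hH2, T, hT, hTm⟩ := hN₀ N (by omega) (fun _ => 0) (fun _ => 0) (fun i => i.elim0)
    (fun p hp => ⟨1, by
      rw [Fin.prod_univ_zero, mul_one]
      intro hd
      have := Int.le_of_dvd (by norm_num) hd
      have := hp.two_le
      omega⟩) 0 (by
      rw [Nat.cast_one]
      exact isCoprime_one_right)
  obtain ⟨h₁, hh₁, h₂, hh₂, hlt⟩ : ∃ h₁ ∈ H, ∃ h₂ ∈ H, h₁ < h₂ := by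
    obtain ⟨x, hx, y, hy, hxy⟩ := one_lt_card.1 hH2
    rcases lt_or_gt_of_ne hxy with h | h
    · exact ⟨x, hx, y, hy, h⟩
    · exact ⟨y, hy, x, hx, h⟩
  obtain ⟨s₁, hs₁, e₁⟩ := mem_image.1 (hHS hh₁)
  obtain ⟨s₂, hs₂, e₂⟩ := mem_image.1 (hHS hh₂)
  have hsl : s₁ < s₂ := by omega
  have hsb := hSb s₂ hs₂
  have hdE := hSd s₁ hs₁ s₂ hs₂ hsl
  have hYle : 6 * (K * K * ((E.image (fun t => t / 6)).card + 1)) ≤ Y := by
    refine le_trans ?_ hY
    gcongr
  refine ⟨6 * (s₂ - s₁), by omega, by omega, ⟨s₂ - s₁, rfl⟩, ?_, ?_⟩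
  · intro hE
    apply hdE
    rw [mem_image]
    exact ⟨6 * (s₂ - s₁), hE, by omega⟩
  · have hcard : T.card ≤ dg (Icc 1 n) (6 * (s₂ - s₁)) := by
      unfold dg
      apply card_le_card_of_injOn (fun t => t + 6 * (s₁ + s₂))
      · intro t ht
        obtain ⟨g1, g2, g3, -⟩ := hTm t ht
        obtain ⟨p1, -⟩ := g3 h₁ hh₁
        obtain ⟨p2, -⟩ := g3 h₂ hh₂
        have hle : h₂ ≤ (S₀.image (fun s => 12 * s)).sup id := le_sup (f := id) (hHS hh₂)
        show t + 6 * (s₁ + s₂) ∈ (filter (fun b => R (6 * (s₂ - s₁)) b) (Icc 1 n) : Finset ℕ)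
        rw [mem_filter, mem_Icc]
        have f1 : 6 * (s₂ - s₁) + (t + 6 * (s₁ + s₂)) = t + h₂ := by omega
        have f2 : Nat.dist (6 * (s₂ - s₁)) (t + 6 * (s₁ + s₂)) = t + h₁ := by
          simp only [Nat.dist]
          omega
        refine ⟨⟨by omega, by omega⟩, ?_, ?_⟩
        · rw [f1]
          exact ⟨p2, p2.odd_of_ne_two (by omega)⟩
        · rw [f2]
          exact ⟨p1, p1.odd_of_ne_two (by omega)⟩
      · intro t _ t' _ htt
        simpa using htt
    have hlog := h1 n (by omega)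
    have hN2 : (2 : ℝ) ≤ N := by exact_mod_cast (by omega : 2 ≤ N)
    have hNn : (N : ℝ) ≤ n := by exact_mod_cast (by omega : N ≤ n)
    have hnN : (n : ℝ) ≤ 4 * N := by exact_mod_cast (by omega : n ≤ 4 * N)
    have hlN : Real.log N ≤ Real.log n := Real.log_le_log (by linarith) hNn
    have hlN0 : 0 < Real.log N := Real.log_pos (by linarith)
    rw [div_le_iff₀ (by positivity)]
    have e1 : Real.log N ^ B ≤ Real.log n ^ B := pow_le_pow_left₀ hlN0.le hlN B
    have e2 : (N : ℝ) ≤ Real.log n ^ B * T.card := hT.trans (mul_le_mul_of_nonneg_right e1 (by positivity))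
    have e3 : (T.card : ℝ) ≤ (dg (Icc 1 n) (6 * (s₂ - s₁)) : ℝ) := by exact_mod_cast hcard
    calc (n : ℝ) ≤ 4 * N := hnN
      _ ≤ 4 * (Real.log n ^ B * T.card) := by linarith
      _ ≤ Real.log n * (Real.log n ^ B * T.card) := by
          apply mul_le_mul_of_nonneg_right hlog
          positivity
      _ ≤ Real.log n * (Real.log n ^ B * (dg (Icc 1 n) (6 * (s₂ - s₁)) : ℝ)) := by gcongr
      _ = (dg (Icc 1 n) (6 * (s₂ - s₁)) : ℝ) * Real.log n ^ (B + 1) := by ring

end Pool.Agent.Helper40.GR
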