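import Pool.Agent.Helper40.GR.Link
import Pool.Agent.Helper40.GR.Graphs
import Pool.Graph.R_seed8.R521.GG.H2
import Pool.Graph.R_seed8.R521.GG.Fin
import Pool.Graph.R_seed8.R521.GG.Mert
import Pool.Graph.R_seed8.R521.GG.B
import Pool.Graph.R_seed8.R521.GG.Mom
import Pool.Graph.R_seed8.R521.GG.Codeg
import Pool.Graph.R_seed8.R521.GG.Wsum
import Pool.Graph.R_seed8.R906.GG.Gold
import Pool.Graph.R_seed8.R906.GG.Twin

set_option autoImplicit false

/-!
# All scales: the vertices with many neighbours below some bound `m ≤ n` are close to each other in `G_n`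
-/

namespace Pool.Agent.Helper40.GR

open Finset Filter
open Pool.Agent Pool.Agent.E8helper66.GB
open Pool.Agent.R521.GG (R dg LL wt)
open Pool.Agent.E8helper98.GB (ev)

/-- a large set of vertices with mutual distances at most five -/
def S_CORE5 : Prop := ∀ U : ℕ, ∃ n₀ : ℕ, ∀ n : ℕ, n₀ ≤ n → ∃ X ⊆ Icc 1 n,
  ((Icc 1 n \ X).card : ℝ) ≤ n / Real.log n ^ U ∧ ∀ a ∈ X, ∀ c ∈ X, Path X 5 a c

theorem core5 : S_CORE5 := by
  classical
  have hPIG := E8helper64.GB.t_PIG
  have hREC := E8helper77.GB.t_REC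
  have hCORE := E8helper23.GB.t_CORE hREC (E8helper64.GB.t_REL hREC) t_QUAD
  have hTII := E8helper75.GB.t_TII E8helper62.GB.t_CS hCORE hPIG E8helper97.GB.t_CST
  have hTI := E8helper97.GB.t_TI hPIG
  have hU3 := t_U3 (E8helper77.GB.t_LAM hTII hTI) (E8helper70.GB.t_LZ hTII hTI)
  have hW := t_ESTW (E8helper81.GB.t_EST hU3)
  have hTWO := E8helper98.GB.t_TWO hW E8helper54.GB.t_LOC
  have hBR := E8helper98.GB.t_BR hW (E8helper64.GB.t_EST3 hU3) E8helper77.GB.t_LOC3
  have hFIVE := E8helper28.GB.t_FIVE hTWO hBR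
  obtain ⟨c, K, hc, -, hm⟩ := R521.GG.main R521.GG.t_mom (R521.GG.t_codeg R521.GG.t_mert)
    (R521.GG.t_wsum R521.GG.t_mert) R906.GGF.t_gold R906.GGG.t_twin R521.GG.t_peel
  intro U
  obtain ⟨n₁, h1⟩ := hm (U + 8)
  obtain ⟨n₂, h2⟩ := hFIVE (U + 8)
  obtain ⟨n₃, h3⟩ := Pool.Agent.E8helper98.GB.ev_log (2 + 2 / c)
  refine ⟨n₁ + n₂ + n₃ + 1, fun n hn => ?_⟩
  obtain ⟨X₀, hX₀, hX₀c, hX₀d, -⟩ := h1 n (by omega)
  obtain ⟨E, hE, hEc, hEp⟩ := h2 n (by omega)
  have hlog := h3 n (by omega)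
  have hc2 : 0 < 2 / c := by positivity
  have hL2 : 2 ≤ Real.log n := by linarith
  have hLc : 2 / c ≤ Real.log n := by linarith
  have hL0 : 0 < Real.log n := by linarith
  have hn0 : (0 : ℝ) < n := by exact_mod_cast (by omega : 0 < n)
  have hX : X₀ \ E ⊆ Icc 1 n := sdiff_subset.trans hX₀
  have hcd : ((Icc 1 n \ (X₀ \ E)).card : ℝ) ≤ 2 * (n / Real.log n ^ (U + 8)) := by
    have e1 : Icc 1 n \ (X₀ \ E) ⊆ (Icc 1 n \ X₀) ∪ E := by
      intro x hx
      rw [Finset.mem_sdiff, Finset.mem_sdiff] at hx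
      rw [mem_union, Finset.mem_sdiff]
      by_cases h : x ∈ X₀
      · right
        by_contra h5
        exact hx.2 ⟨h, h5⟩
      · left
        exact ⟨hx.1, h⟩
    have e2 := (card_le_card e1).trans (card_union_le _ _)
    have e3 : ((Icc 1 n \ (X₀ \ E)).card : ℝ) ≤ (Icc 1 n \ X₀).card + E.card := by exact_mod_cast e2
    linarith
  have hstep : ∀ k, 2 * ((n : ℝ) / Real.log n ^ (k + 1)) ≤ n / Real.log n ^ k := by
    intro k
    have e1 : (n : ℝ) / Real.log n ^ k = Real.log n * (n / Real.log n ^ (k + 1)) := by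
      field_simp
      ring
    have e2 : 0 ≤ (n : ℝ) / Real.log n ^ (k + 1) := by positivity
    rw [e1]
    exact mul_le_mul_of_nonneg_right hL2 e2
  have hcd2 : ((Icc 1 n \ (X₀ \ E)).card : ℝ) ≤ n / Real.log n ^ (U + 7) := hcd.trans (hstep (U + 7))
  refine ⟨X₀ \ E, hX, hcd2.trans (div_pow_mono (by linarith) (by omega)), ?_⟩
  refine hEp _ hX (by exact sdiff_disjoint) (hcd2.trans (div_pow_mono (by linarith) (by omega))) ?_
  intro a ha
  rw [Finset.mem_sdiff] at ha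
  have h5 := hX₀d a ha.1
  have h6 : dg X₀ a ≤ dg (X₀ \ E) a + E.card := by
    unfold dg
    have e1 : X₀.filter (fun b => R a b) ⊆ ((X₀ \ E).filter (fun b => R a b)) ∪ E := by
      intro b hb
      rw [mem_filter] at hb
      rw [mem_union, mem_filter, Finset.mem_sdiff]
      by_cases h : b ∈ E
      · exact Or.inr h
      · exact Or.inl ⟨⟨hb.1, h⟩, hb.2⟩
    exact (card_le_card e1).trans (card_union_le _ _)
  have h7 : (dg X₀ a : ℝ) ≤ dg (X₀ \ E) a + E.card := by exact_mod_cast h6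
  have h8 : (n : ℝ) / Real.log n ^ (U + 8) ≤ n / Real.log n ^ 3 := div_pow_mono (by linarith) (by omega)
  have h9 : 2 * ((n : ℝ) / Real.log n ^ 3) ≤ c * (n / Real.log n ^ 2) := by
    have e1 : (n : ℝ) / Real.log n ^ 2 = Real.log n * (n / Real.log n ^ 3) := by
      field_simp
    rw [e1]
    have e2 : 0 ≤ (n : ℝ) / Real.log n ^ 3 := by positivity
    have e3 : 2 ≤ c * Real.log n := by
      rw [div_le_iff₀ hc] at hLc
      linarith
    nlinarith
  linarith

lemma wk_trans {Q : ℕ → ℕ → Prop} {lo n : ℕ} {r s a b c : ℕ} (h : Wk Q lo n r a b) (h' : Wk Q lo n s b c) :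
    Wk Q lo n (r + s) a c := by
  induction r generalizing a with
  | zero =>
    have h1 : a = b := h
    subst h1
    rwa [Nat.zero_add]
  | succ r ih =>
    rcases h with h | ⟨v, hv, hR, h⟩
    · exact wk_mono (by omega) (ih h)
    · have := ih h
      rw [show r + 1 + s = (r + s) + 1 by ring]
      exact Or.inr ⟨v, hv, hR, this⟩

lemma wk_symm {Q : ℕ → ℕ → Prop} (hQ : ∀ a b, Q a b → Q b a) {lo n : ℕ} {r a b : ℕ} (ha : a ∈ Icc lo n)
    (h : Wk Q lo n r a b) : Wk Q lo n r b a := by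
  induction r generalizing a with
  | zero =>
    have h1 : a = b := h
    exact h1.symm
  | succ r ih =>
    rcases h with h | ⟨v, hv, hR, h⟩
    · exact Or.inl (ih ha h)
    · have h1 := ih hv h
      have h2 : Wk Q lo n 1 v a := Or.inr ⟨a, ha, hQ _ _ hR, rfl⟩
      exact wk_trans h1 h2

lemma wk_of_path {X : Finset ℕ} {lo m n : ℕ} (hlo : lo ≤ 1) (hX : X ⊆ Icc 1 m) (hmn : m ≤ n) {r a b : ℕ}
    (h : Path X r a b) : Wk R lo n r a b := by
  induction r generalizing a with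
  | zero => exact h
  | succ r ih =>
    rcases h with h | ⟨v, hv, hR, h⟩
    · exact Or.inl (ih h)
    · have hv' := mem_Icc.1 (hX hv)
      exact Or.inr ⟨v, mem_Icc.2 ⟨by omega, by omega⟩, hR, ih h⟩

/-- a walk between vertices of the same parity -/
lemma path_parity {X : Finset ℕ} {r a b : ℕ} (h : Path X (r + 1) a b) (hp : (a + b + r) % 2 = 0) : Path X r a b := by
  induction r generalizing a with
  | zero =>
    rcases h with h | ⟨v, hv, hR, h⟩
    · exact h
    · have h1 : v = b := h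
      subst h1
      have := R_par hR
      omega
  | succ r ih =>
    rcases h with h | ⟨v, hv, hR, h⟩
    · exact h
    · have h1 := R_par hR
      exact Or.inr ⟨v, hv, hR, ih h (by omega)⟩

/-- `a` has at least `m / (log m) ^ A` neighbours `b ≤ m`, for some `m` between `N` and `n` -/
def Rich (A N n a : ℕ) : Prop := ∃ m : ℕ, N ≤ m ∧ m ≤ n ∧ (m : ℝ) / Real.log m ^ A ≤ (dg (Icc 1 m) a : ℝ)

/-- all scales -/
theorem scales (A : ℕ) : ∃ N : ℕ, ∀ n lo : ℕ, lo ≤ 1 → ∀ a c : ℕ, a ∈ Icc lo n → c ∈ Icc lo n →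
    Rich A N n a → Rich A N n c → Wk R lo n 18 a c := by
  classical
  obtain ⟨K, B, hlink⟩ := link
  obtain ⟨U, hU⟩ : ∃ U, U = A + B + 1 := ⟨_, rfl⟩
  obtain ⟨n₀, h0⟩ := core5 U
  -- the fixed set `Z`
  obtain ⟨m1, h1⟩ := Pool.Agent.E8helper98.GB.ev_log (12 * (K * K : ℕ) + 2)
  obtain ⟨Y, hY⟩ : ∃ Y, Y = n₀ + m1 + 12 * (K * K) + 2 := ⟨_, rfl⟩
  obtain ⟨Z, hZ, hZc, hZp⟩ := h0 Y (by omega)
  have hlogY := h1 Y (by omega)
  have hK0 : (0 : ℝ) ≤ ((K * K : ℕ) : ℝ) := Nat.cast_nonneg _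
  have hYr : (0 : ℝ) < Y := by exact_mod_cast (by omega : 0 < Y)
  have hsize : 6 * (K * K * ((Icc 1 Y \ Z).card + 1)) ≤ Y := by
    have e1 : ((Icc 1 Y \ Z).card : ℝ) * (12 * (K * K : ℕ)) ≤ Y := by
      have e2 : (Y : ℝ) / Real.log Y ^ U ≤ Y / Real.log Y := by
        apply div_le_div_of_nonneg_left hYr.le (by linarith)
        calc Real.log Y = Real.log Y ^ 1 := (pow_one _).symm
          _ ≤ Real.log Y ^ U := pow_le_pow_right₀ (by linarith) (by omega)
      have e3 : (Y : ℝ) / Real.log Y * (12 * (K * K : ℕ)) ≤ Y := by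
        rw [div_mul_eq_mul_div, div_le_iff₀ (by linarith)]
        apply mul_le_mul_of_nonneg_left _ hYr.le
        linarith
      exact (mul_le_mul_of_nonneg_right (hZc.trans e2) (by linarith)).trans e3
    have e4 : (Icc 1 Y \ Z).card * (12 * (K * K)) ≤ Y := by exact_mod_cast e1
    have e5 : 12 * (K * K) ≤ Y := by omega
    nlinarith
  obtain ⟨n₁, h2⟩ := hlink (Icc 1 Y \ Z) Y hsize
  obtain ⟨m2, h3⟩ := Pool.Agent.E8helper98.GB.ev_log 2
  refine ⟨n₀ + n₁ + m2 + Y + 2, fun n lo hlo a c ha hc hra hrc => ?_⟩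
  -- from a rich vertex to `Z`
  have key : ∀ a ∈ Icc lo n, Rich A (n₀ + n₁ + m2 + Y + 2) n a → ∃ y ∈ Z, 6 ∣ y ∧ Wk R lo n 7 a y := by
    rintro a ha ⟨m, hNm, hmn, hdeg⟩
    obtain ⟨X, hX, hXc, hXp⟩ := h0 m (by omega)
    obtain ⟨y, y1, y2, y3, y4, y5⟩ := h2 m (by omega)
    have hlog := h3 m (by omega)
    have hyZ : y ∈ Z := by
      by_contra hy
      exact y4 (Finset.mem_sdiff.2 ⟨mem_Icc.2 ⟨y1, y2⟩, hy⟩)
    have hm0 : (0 : ℝ) < m := by exact_mod_cast (by omega : 0 < m)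
    have hL0 : 0 < Real.log m := by linarith
    have hin : ∀ (v C : ℕ), C + 1 ≤ U → (m : ℝ) / Real.log m ^ C ≤ (dg (Icc 1 m) v : ℝ) → ∃ b ∈ X, R v b := by
      intro v C hC hv
      by_contra hcon
      push Not at hcon
      have e1 : (Icc 1 m).filter (fun b => R v b) ⊆ Icc 1 m \ X := by
        intro b hb
        rw [mem_filter] at hb
        rw [Finset.mem_sdiff]
        exact ⟨hb.1, fun h => hcon b h hb.2⟩
      have e2 : (dg (Icc 1 m) v : ℝ) ≤ ((Icc 1 m \ X).card : ℝ) := by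
        exact_mod_cast card_le_card e1
      have e3 : (m : ℝ) / Real.log m ^ U ≤ m / Real.log m ^ (C + 1) := div_pow_mono (by linarith) hC
      have e4 : (m : ℝ) / Real.log m ^ C = Real.log m * (m / Real.log m ^ (C + 1)) := by
        field_simp
        ring
      have e5 : 0 < (m : ℝ) / Real.log m ^ (C + 1) := by positivity
      nlinarith
    obtain ⟨b, hb, hab⟩ := hin a A (by omega) hdeg
    obtain ⟨b', hb', hyb⟩ := hin y B (by omega) y5
    have hb1 := mem_Icc.1 (hX hb)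
    have hy1 := mem_Icc.1 (hZ hyZ)
    refine ⟨y, hyZ, y3, ?_⟩
    have w1 : Wk R lo n 1 a b := wk_cons (by omega) (by omega) hab (wk_zero _ _ _ _ _)
    have w2 : Wk R lo n 5 b b' := wk_of_path hlo hX hmn (hXp b hb b' hb')
    have w3 : Wk R lo n 1 b' y :=
      wk_cons (by omega) (by omega) (Pool.Agent.E8helper28.GB.R_symm hyb) (wk_zero _ _ _ _ _)
    exact wk_trans (wk_trans w1 w2) w3
  obtain ⟨y, hy, hy6, wy⟩ := key a ha hra
  obtain ⟨y', hy', hy6', wy'⟩ := key c hc hrc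
  have hYn : Y ≤ n := by
    obtain ⟨m, h5, h6, -⟩ := hra
    omega
  have w4 : Path Z 4 y y' := path_parity (hZp y hy y' hy') (by omega)
  have w5 : Wk R lo n 4 y y' := wk_of_path hlo hZ hYn w4
  have hRs : ∀ a b, R a b → R b a := fun a b h => Pool.Agent.E8helper28.GB.R_symm h
  exact wk_trans (wk_trans wy w5) (wk_symm hRs hc wy')

/-- almost all `a` have many Goldbach representations -/
theorem gold_dens (U : ℕ) : ∃ x₀ : ℕ, ∀ x : ℕ, x₀ ≤ x →
    (((Icc 1 x).filter (fun a => 16 ≤ a ∧ (dg (Icc 1 a) a : ℝ) < 1 / 64 * wt a * LL a)).card : ℝ) ≤ x / Real.log x ^ U := by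
  classical
  obtain ⟨N₀, h⟩ := Pool.Agent.TH935.GF.fam_win 1 2 0 2 U 0 le_rfl (1 / 2) (by norm_num)
    (Pool.Agent.W93.PG.WinP (1 / 2) 2) (fun m _ _ h => h)
  refine ⟨max N₀ 16, fun n hn => ?_⟩
  have hn1 := le_trans (le_max_left _ _) hn
  apply h n hn1 n (fun m => 2 * m)
  · intro m hm
    rw [mem_Icc] at hm
    exact ⟨by show 2 * m ≤ 2 * n; omega, dvd_mul_right 2 m⟩
  · have h1 := Pool.Agent.R906.GGF.energy_one n (fun m => 2 * m) (fun a b hab => by
      have : 2 * a = 2 * b := hab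
      omega)
    have h2 : (Pool.Agent.H560R3.GB.energy 1 n (fun m => 2 * m) : ℝ) ≤ n := by exact_mod_cast h1
    have h3 : (0 : ℝ) ≤ n := Nat.cast_nonneg n
    calc (Pool.Agent.H560R3.GB.energy 1 n (fun m => 2 * m) : ℝ) * n ≤ n * n := mul_le_mul_of_nonneg_right h2 h3
      _ = _ := by ring
  · exact filter_subset _ _
  · intro a ha hW
    rw [mem_filter, mem_Icc] at ha
    obtain ⟨_, h2, h3⟩ := ha
    have := Pool.Agent.R906.GGF.good a a h2 le_rfl (by omega) hW
    linarith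

/-- almost all `a` are rich, with `m = a` -/
theorem rich_dens (A N : ℕ) (hA : 3 ≤ A) (U : ℕ) : ∃ x₀ : ℕ, ∀ x : ℕ, x₀ ≤ x → ∀ S ⊆ Icc 1 x,
    (∀ a ∈ S, ¬ Rich A N a a) → (S.card : ℝ) ≤ x / Real.log x ^ U := by
  classical
  obtain ⟨x₁, h1⟩ := gold_dens (U + 1)
  obtain ⟨m₁, h2⟩ := Pool.Agent.E8helper98.GB.ev_log 64
  obtain ⟨m₂, h3⟩ := Pool.Agent.E8helper98.GB.ev_log 2
  obtain ⟨M, hM⟩ : ∃ M, M = N + m₁ + 16 := ⟨_, rfl⟩
  obtain ⟨m₃, h4⟩ := Pool.Agent.E8helper98.GB.ev_pow (U + 1)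
  refine ⟨x₁ + m₂ + m₃ + M * M + 1, fun x hx S hS hSr => ?_⟩
  have hlog := h3 x (by omega)
  have hpow := h4 x (by omega)
  have hx0 : (0 : ℝ) < x := by exact_mod_cast (by omega : 0 < x)
  have hL0 : 0 < Real.log x := by linarith
  have hsub : S ⊆ (range M) ∪ (Icc 1 x).filter (fun a => 16 ≤ a ∧ (dg (Icc 1 a) a : ℝ) < 1 / 64 * wt a * LL a) := by
    intro a ha
    have ha' := hS ha
    rw [mem_union, mem_range, mem_filter]
    by_cases hlt : a < M
    · exact Or.inl hlt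
    · right
      refine ⟨ha', by omega, ?_⟩
      by_contra hcon
      push Not at hcon
      apply hSr a ha
      refine ⟨a, by omega, le_rfl, ?_⟩
      have hla := h2 a (by omega)
      have ha0 : (0 : ℝ) < a := by exact_mod_cast (by omega : 0 < a)
      have hla0 : 0 < Real.log a := by linarith
      have hwt : 1 ≤ wt a := by
        have e1 : 0 < a.totient := Nat.totient_pos.2 (by omega)
        have e2 : (0 : ℝ) < a.totient := by exact_mod_cast e1
        show 1 ≤ (a : ℝ) / a.totient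
        rw [one_le_div e2]
        exact_mod_cast Nat.totient_le a
      have e3 : (a : ℝ) / Real.log a ^ A ≤ a / Real.log a ^ 3 := div_pow_mono (by linarith) hA
      have e4 : (a : ℝ) / Real.log a ^ 3 ≤ 1 / 64 * LL a := by
        show (a : ℝ) / Real.log a ^ 3 ≤ 1 / 64 * (a / Real.log a ^ 2)
        have e5 : (a : ℝ) / Real.log a ^ 2 = Real.log a * (a / Real.log a ^ 3) := by
          field_simp
        rw [e5]
        have e6 : 0 < (a : ℝ) / Real.log a ^ 3 := by positivity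
        nlinarith
      have e7 : 0 ≤ LL a := by
        show 0 ≤ (a : ℝ) / Real.log a ^ 2
        positivity
      have e8 : 1 / 64 * LL a ≤ 1 / 64 * wt a * LL a := by nlinarith
      linarith
  have e1 := (card_le_card hsub).trans (card_union_le _ _)
  rw [card_range] at e1
  have e2 : (S.card : ℝ) ≤ M + (((Icc 1 x).filter (fun a => 16 ≤ a ∧ (dg (Icc 1 a) a : ℝ) <
      1 / 64 * wt a * LL a)).card : ℝ) := by exact_mod_cast e1
  have e3 := h1 x (by omega)
  have e4 : (M : ℝ) ≤ x / Real.log x ^ (U + 1) := by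
    have e5 : (M : ℝ) ≤ Real.sqrt x := by
      apply Real.le_sqrt_of_sq_le
      have : M * M ≤ x := by omega
      rw [sq]
      exact_mod_cast this
    refine e5.trans ?_
    rw [le_div_iff₀ (by positivity)]
    have e6 : Real.sqrt x * Real.sqrt x = x := Real.mul_self_sqrt hx0.le
    have e7 : 0 ≤ Real.sqrt x := Real.sqrt_nonneg _
    have e8 : 0 < Real.log x ^ (U + 1) := by positivity
    nlinarith
  have e9 : (x : ℝ) / Real.log x ^ U = Real.log x * (x / Real.log x ^ (U + 1)) := by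
    field_simp
    ring
  have e10 : 0 < (x : ℝ) / Real.log x ^ (U + 1) := by positivity
  nlinarith

end Pool.Agent.Helper40.GR
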