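import Pool.Agent.Helper40.GR.Forms

set_option autoImplicit false

/-!
# The sets of neighbours needed for the relaxed Goldbach graphs, second part
-/

namespace Pool.Agent.Helper40.GR

open Finset Filter
open Pool.Agent.E8helper66.GB (Same)
open Pool.Agent.E8helper98.GB (ev ev_log log_tendsto ev_pow)

lemma nd (q : ℤ) (hq : Prime q) (k : ℕ) (m : ℤ) (f : Fin k → ℤ) (hm : ¬ q ∣ m) (hf : ∀ i, ¬ q ∣ f i) :
    ¬ q ∣ m * ∏ i, f i := by
  intro h
  rcases hq.dvd_or_dvd h with h | h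
  · exact hm h
  · obtain ⟨i, -, hi⟩ := (Prime.dvd_finsetProd_iff hq _).1 h
    exact hf i hi

/-- opposite parity and opposite divisibility by three -/
def Opp (v w : ℕ) : Prop := (v + w) % 2 = 1 ∧ ¬ 3 ∣ v + w ∧ ¬ 3 ∣ Nat.dist v w

lemma Opp_of {x : ℝ} {v w : ℕ} (hx : 3 ≤ x) (h1 : Rs x (v + w)) (h2 : ¬ 3 ∣ Nat.dist v w) : Opp v w := by
  refine ⟨?_, fun h => ?_, h2⟩
  · by_contra hcon
    have h3 : 2 ∣ v + w := by omega
    have := h1.2 2 Nat.prime_two h3
    norm_num at this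
    linarith
  · have := h1.2 3 Nat.prime_three h
    norm_num at this
    linarith

lemma Opp_of' {x : ℝ} {v w : ℕ} (hx : 3 ≤ x) (h1 : Rs x (Nat.dist v w)) (h2 : ¬ 3 ∣ v + w) : Opp v w := by
  refine ⟨?_, h2, fun h => ?_⟩
  · by_contra hcon
    have h3 : 2 ∣ Nat.dist v w := by
      simp only [Nat.dist]
      omega
    have := h1.2 2 Nat.prime_two h3
    norm_num at this
    linarith
  · have := h1.2 3 Nat.prime_three h
    norm_num at this
    linarith

lemma Opp_three {v w : ℕ} (h : Opp v w) : 3 ∣ w ↔ ¬ 3 ∣ v := by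
  obtain ⟨h1, h2, h3⟩ := h
  have e1 : v % 3 = 0 ∨ v % 3 = 1 ∨ v % 3 = 2 := by omega
  have e2 : w % 3 = 0 ∨ w % 3 = 1 ∨ w % 3 = 2 := by omega
  rcases le_total v w with h | h
  · rw [Nat.dist_eq_sub_of_le h] at h3
    rcases e1 with e1 | e1 | e1 <;> rcases e2 with e2 | e2 | e2 <;> omega
  · rw [Nat.dist_eq_sub_of_le_right h] at h3
    rcases e1 with e1 | e1 | e1 <;> rcases e2 with e2 | e2 | e2 <;> omega

lemma Opp_par {v w : ℕ} (h : Opp v w) : (v + w) % 2 = 1 := h.1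

/-- `n ^ κ` is large -/
lemma ev_rpow (κ : ℝ) (hκ : 0 < κ) : ∃ n₀ : ℕ, ∀ n : ℕ, n₀ ≤ n → (3 : ℝ) ≤ (n : ℝ) ^ κ := by
  apply ev
  have h := (tendsto_rpow_atTop hκ).comp (tendsto_natCast_atTop_atTop (R := ℝ))
  exact h.eventually_ge_atTop 3

/-- type one: `|v - w|` is a prime -/
lemma setI : ∃ (B : ℕ) (κ : ℝ), 0 < κ ∧ ∃ n₀ : ℕ, ∀ n : ℕ, n₀ ≤ n → ∀ v ≤ n, ∀ c ≤ n, Same c v →
    ∃ W ⊆ Icc 1 n, (n : ℝ) / Real.log n ^ B ≤ W.card ∧ ∀ w ∈ W,
      ((Nat.dist v w).Prime ∧ Odd (Nat.dist v w)) ∧ 3 ≤ v + w ∧ Rs ((n : ℝ) ^ κ) (v + w) ∧ Opp v w ∧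
      Rs ((n : ℝ) ^ κ) (c + w) ∧ Rs ((n : ℝ) ^ κ) (Nat.dist c w) := by
  classical
  obtain ⟨B, κ, hκ, n₁, h⟩ := gen 3 le_rfl
  obtain ⟨n₂, h2⟩ := ev_rpow κ hκ
  refine ⟨B, κ, hκ, n₁ + n₂ + 100, fun n hn v hv c hc hcv => ?_⟩
  obtain ⟨hp, h3⟩ := hcv
  have hbig := h2 n (by omega)
  obtain ⟨ε, hε, hrange⟩ : ∃ ε : ℤ, (ε = 1 ∨ ε = -1) ∧ ∀ p : ℤ, (n / 8 : ℕ) < p → p ≤ 2 * (n / 8 : ℕ) →
      1 ≤ (v : ℤ) + ε * p ∧ (v : ℤ) + ε * p ≤ n := by
    by_cases h2 : 2 * v ≤ n
    · refine ⟨1, Or.inl rfl, fun p h5 h6 => ?_⟩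
      omega
    · refine ⟨-1, Or.inr rfl, fun p h5 h6 => ?_⟩
      omega
  obtain ⟨P, hP, hPm⟩ := h n (by omega) (n / 8) (by omega) (by omega) ![ε, ε, -ε] ![2 * v, c + v, c - v] (by
    intro i
    fin_cases i
    · simp only [Fin.zero_eta, Matrix.cons_val_zero]
      rcases hε with rfl | rfl <;> norm_num <;> omega
    · simp only [Fin.mk_one, Matrix.cons_val_one, Matrix.cons_val_zero]
      rcases hε with rfl | rfl <;> norm_num <;> rw [abs_le] <;> omega
    · simp only [Fin.reduceFinMk, Matrix.cons_val]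
      rcases hε with rfl | rfl <;> norm_num <;> rw [abs_le] <;> omega) (by
    refine ⟨1, nd 2 Int.prime_two _ _ _ (by norm_num) ?_⟩
    intro i
    fin_cases i
    · simp only [Fin.zero_eta, Matrix.cons_val_zero]
      rcases hε with rfl | rfl <;> omega
    · simp only [Fin.mk_one, Matrix.cons_val_one, Matrix.cons_val_zero]
      rcases hε with rfl | rfl <;> omega
    · simp only [Fin.reduceFinMk, Matrix.cons_val]
      rcases hε with rfl | rfl <;> omega) (by
    by_cases h3v : 3 ∣ v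
    · have h3c := h3.2 h3v
      refine ⟨1, nd 3 Int.prime_three _ _ _ (by norm_num) ?_⟩
      intro i
      fin_cases i
      · simp only [Fin.zero_eta, Matrix.cons_val_zero]
        rcases hε with rfl | rfl <;> omega
      · simp only [Fin.mk_one, Matrix.cons_val_one, Matrix.cons_val_zero]
        rcases hε with rfl | rfl <;> omega
      · simp only [Fin.reduceFinMk, Matrix.cons_val]
        rcases hε with rfl | rfl <;> omega
    · have h3c : ¬ 3 ∣ c := fun h => h3v (h3.1 h)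
      refine ⟨-(ε * v), nd 3 Int.prime_three _ _ _ ?_ ?_⟩
      · rcases hε with rfl | rfl <;> omega
      intro i
      fin_cases i
      · simp only [Fin.zero_eta, Matrix.cons_val_zero]
        rcases hε with rfl | rfl <;> omega
      · simp only [Fin.mk_one, Matrix.cons_val_one, Matrix.cons_val_zero]
        rcases hε with rfl | rfl <;> omega
      · simp only [Fin.reduceFinMk, Matrix.cons_val]
        rcases hε with rfl | rfl <;> omega)
  have hw : ∀ p ∈ P, (((v : ℤ) + ε * p).toNat : ℤ) = v + ε * p ∧ 1 ≤ ((v : ℤ) + ε * p).toNat ∧ ((v : ℤ) + ε * p).toNat ≤ n := by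
    intro p hp
    obtain ⟨g1, g2, -, -⟩ := hPm p hp
    obtain ⟨r1, r2⟩ := hrange p (by exact_mod_cast g1) (by exact_mod_cast g2)
    omega
  refine ⟨P.image (fun p : ℕ => ((v : ℤ) + ε * (p : ℤ)).toNat), ?_, ?_, ?_⟩
  · intro w hw'
    rw [mem_image] at hw'
    obtain ⟨p, hp, rfl⟩ := hw'
    rw [mem_Icc]
    exact (hw p hp).2
  · rw [card_image_of_injOn]
    · exact hP
    · intro p hp q hq hpq
      have e1 := (hw p hp).1
      have e2 := (hw q hq).1
      simp only at hpq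
      rw [hpq] at e1
      rcases hε with rfl | rfl <;> omega
  · intro w hw'
    rw [mem_image] at hw'
    obtain ⟨p, hp, rfl⟩ := hw'
    obtain ⟨e1, e2, e3⟩ := hw p hp
    obtain ⟨g1, g2, g3, g4⟩ := hPm p hp
    have k0 := g4 0
    have k1 := g4 1
    have k2 := g4 2
    simp only [Matrix.cons_val_zero, Matrix.cons_val_one, Matrix.cons_val] at k0 k1 k2
    set w := ((v : ℤ) + ε * p).toNat with hwd
    have hdist : Nat.dist v w = p := by
      simp only [Nat.dist]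
      rcases hε with rfl | rfl <;> omega
    have hlt : (n : ℝ) ^ κ < (n : ℝ) ^ κ + 1 := by linarith
    have f0 : Rs ((n : ℝ) ^ κ) (v + w) := Ro_Rs k0 hlt (by rcases hε with rfl | rfl <;> omega)
    have f1 : Rs ((n : ℝ) ^ κ) (c + w) := Ro_Rs k1 hlt (by rcases hε with rfl | rfl <;> omega)
    have f2 : Rs ((n : ℝ) ^ κ) (Nat.dist c w) := Ro_Rs k2 hlt (by
      simp only [Nat.dist]
      rcases hε with rfl | rfl <;> omega)
    have hp3 : 3 < p := by omega
    refine ⟨⟨by rwa [hdist], ?_⟩, ?_, f0, Opp_of hbig f0 ?_, f1, f2⟩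
    · rw [hdist]
      rcases g3.eq_two_or_odd' with h | h
      · omega
      · exact h
    · rcases hε with rfl | rfl <;> omega
    · rw [hdist]
      intro h
      have := (Nat.prime_dvd_prime_iff_eq Nat.prime_three g3).1 h
      omega

/-- type one: neighbours `b` of `u` for which `b`, `b + 3` are adjacent -/
lemma setD : ∃ (B : ℕ) (κ : ℝ), 0 < κ ∧ ∃ n₀ : ℕ, ∀ n : ℕ, n₀ ≤ n → ∀ u ≤ n, 3 ∣ u →
    ∃ W ⊆ Icc 1 n, (n : ℝ) / Real.log n ^ B ≤ W.card ∧ ∀ w ∈ W, w + 3 ≤ n ∧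
      ((Nat.dist u w).Prime ∧ Odd (Nat.dist u w)) ∧ 3 ≤ u + w ∧ Rs ((n : ℝ) ^ κ) (u + w) ∧ Opp u w ∧
      Rs ((n : ℝ) ^ κ) (2 * w + 3) := by
  classical
  obtain ⟨B, κ, hκ, n₁, h⟩ := gen 2 (by norm_num)
  obtain ⟨n₂, h2⟩ := ev_rpow κ hκ
  refine ⟨B, κ, hκ, n₁ + n₂ + 100, fun n hn v hv h3v => ?_⟩
  have hbig := h2 n (by omega)
  obtain ⟨ε, hε, hrange⟩ : ∃ ε : ℤ, (ε = 1 ∨ ε = -1) ∧ ∀ p : ℤ, (n / 8 : ℕ) < p → p ≤ 2 * (n / 8 : ℕ) →
      1 ≤ (v : ℤ) + ε * p ∧ (v : ℤ) + ε * p + 3 ≤ n := by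
    by_cases h2 : 2 * v ≤ n
    · refine ⟨1, Or.inl rfl, fun p h5 h6 => ?_⟩
      omega
    · refine ⟨-1, Or.inr rfl, fun p h5 h6 => ?_⟩
      omega
  obtain ⟨P, hP, hPm⟩ := h n (by omega) (n / 8) (by omega) (by omega) ![ε, 2 * ε] ![2 * v, 2 * v + 3] (by
    intro i
    fin_cases i
    · simp only [Fin.zero_eta, Matrix.cons_val_zero]
      rcases hε with rfl | rfl <;> norm_num <;> omega
    · simp only [Fin.mk_one, Matrix.cons_val_one, Matrix.cons_val_zero]
      rcases hε with rfl | rfl <;> norm_num <;> rw [abs_le] <;> omega) (by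
    refine ⟨1, nd 2 Int.prime_two _ _ _ (by norm_num) ?_⟩
    intro i
    fin_cases i
    · simp only [Fin.zero_eta, Matrix.cons_val_zero]
      rcases hε with rfl | rfl <;> omega
    · simp only [Fin.mk_one, Matrix.cons_val_one, Matrix.cons_val_zero]
      rcases hε with rfl | rfl <;> omega) (by
    refine ⟨1, nd 3 Int.prime_three _ _ _ (by norm_num) ?_⟩
    intro i
    fin_cases i
    · simp only [Fin.zero_eta, Matrix.cons_val_zero]
      rcases hε with rfl | rfl <;> omega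
    · simp only [Fin.mk_one, Matrix.cons_val_one, Matrix.cons_val_zero]
      rcases hε with rfl | rfl <;> omega)
  have hw : ∀ p ∈ P, (((v : ℤ) + ε * p).toNat : ℤ) = v + ε * p ∧ 1 ≤ ((v : ℤ) + ε * p).toNat ∧ ((v : ℤ) + ε * p).toNat + 3 ≤ n := by
    intro p hp
    obtain ⟨g1, g2, -, -⟩ := hPm p hp
    obtain ⟨r1, r2⟩ := hrange p (by exact_mod_cast g1) (by exact_mod_cast g2)
    omega
  refine ⟨P.image (fun p : ℕ => ((v : ℤ) + ε * (p : ℤ)).toNat), ?_, ?_, ?_⟩
  · intro w hw'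
    rw [mem_image] at hw'
    obtain ⟨p, hp, rfl⟩ := hw'
    rw [mem_Icc]
    have := (hw p hp).2
    omega
  · rw [card_image_of_injOn]
    · exact hP
    · intro p hp q hq hpq
      have e1 := (hw p hp).1
      have e2 := (hw q hq).1
      simp only at hpq
      rw [hpq] at e1
      rcases hε with rfl | rfl <;> omega
  · intro w hw'
    rw [mem_image] at hw'
    obtain ⟨p, hp, rfl⟩ := hw'
    obtain ⟨e1, e2, e3⟩ := hw p hp
    obtain ⟨g1, g2, g3, g4⟩ := hPm p hp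
    have k0 := g4 0
    have k1 := g4 1
    simp only [Matrix.cons_val_zero, Matrix.cons_val_one] at k0 k1
    set w := ((v : ℤ) + ε * p).toNat with hwd
    have hdist : Nat.dist v w = p := by
      simp only [Nat.dist]
      rcases hε with rfl | rfl <;> omega
    have hlt : (n : ℝ) ^ κ < (n : ℝ) ^ κ + 1 := by linarith
    have f0 : Rs ((n : ℝ) ^ κ) (v + w) := Ro_Rs k0 hlt (by rcases hε with rfl | rfl <;> omega)
    have f1 : Rs ((n : ℝ) ^ κ) (2 * w + 3) := Ro_Rs k1 hlt (by rcases hε with rfl | rfl <;> omega)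
    have hp3 : 3 < p := by omega
    refine ⟨e3, ⟨by rwa [hdist], ?_⟩, ?_, f0, Opp_of hbig f0 ?_, f1⟩
    · rw [hdist]
      rcases g3.eq_two_or_odd' with h | h
      · omega
      · exact h
    · rcases hε with rfl | rfl <;> omega
    · rw [hdist]
      intro h
      have := (Nat.prime_dvd_prime_iff_eq Nat.prime_three g3).1 h
      omega

/-- type two: `v + w` is a prime -/
lemma setII : ∃ (B : ℕ) (κ : ℝ), 0 < κ ∧ ∃ n₀ : ℕ, ∀ n : ℕ, n₀ ≤ n → ∀ v ≤ n, ∀ c ≤ n, Same c v →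
    ∃ W ⊆ Icc 1 n, (n : ℝ) / Real.log n ^ B ≤ W.card ∧ ∀ w ∈ W,
      ((v + w).Prime ∧ Odd (v + w)) ∧ 3 ≤ Nat.dist v w ∧ Rs ((n : ℝ) ^ κ) (Nat.dist v w) ∧ Opp v w ∧
      Rs ((n : ℝ) ^ κ) (c + w) ∧ Rs ((n : ℝ) ^ κ) (Nat.dist c w) := by
  classical
  obtain ⟨B, κ, hκ, n₁, h⟩ := gen 3 le_rfl
  obtain ⟨n₂, h2⟩ := ev_rpow κ hκ
  obtain ⟨n₃, h3'⟩ := ev_log 2
  obtain ⟨n₄, h4'⟩ := ev_pow (B + 1)
  refine ⟨B + 1, κ, hκ, n₁ + n₂ + n₃ + n₄ + 100, fun n hn v hv c hc hcv => ?_⟩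
  obtain ⟨hp, h3⟩ := hcv
  have hbig := h2 n (by omega)
  have hlog := h3' n (by omega)
  have hpow := h4' n (by omega)
  obtain ⟨P, hP, hPm⟩ := h n (by omega) (max v (n / 2)) (by omega) (by omega) ![-1, 1, -1] ![2 * v, c - v, c + v] (by
    intro i
    fin_cases i
    · simp only [Fin.zero_eta, Matrix.cons_val_zero]
      norm_num
      omega
    · simp only [Fin.mk_one, Matrix.cons_val_one, Matrix.cons_val_zero]
      norm_num
      rw [abs_le]
      omega
    · simp only [Fin.reduceFinMk, Matrix.cons_val]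
      norm_num
      rw [abs_le]
      omega) (by
    refine ⟨1, nd 2 Int.prime_two _ _ _ (by norm_num) ?_⟩
    intro i
    fin_cases i
    · simp only [Fin.zero_eta, Matrix.cons_val_zero]
      omega
    · simp only [Fin.mk_one, Matrix.cons_val_one, Matrix.cons_val_zero]
      omega
    · simp only [Fin.reduceFinMk, Matrix.cons_val]
      omega) (by
    by_cases h3v : 3 ∣ v
    · have h3c := h3.2 h3v
      refine ⟨1, nd 3 Int.prime_three _ _ _ (by norm_num) ?_⟩
      intro i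
      fin_cases i
      · simp only [Fin.zero_eta, Matrix.cons_val_zero]
        omega
      · simp only [Fin.mk_one, Matrix.cons_val_one, Matrix.cons_val_zero]
        omega
      · simp only [Fin.reduceFinMk, Matrix.cons_val]
        omega
    · have h3c : ¬ 3 ∣ c := fun h => h3v (h3.1 h)
      refine ⟨v, nd 3 Int.prime_three _ _ _ (by omega) ?_⟩
      intro i
      fin_cases i
      · simp only [Fin.zero_eta, Matrix.cons_val_zero]
        omega
      · simp only [Fin.mk_one, Matrix.cons_val_one, Matrix.cons_val_zero]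
        omega
      · simp only [Fin.reduceFinMk, Matrix.cons_val]
        omega)
  obtain ⟨P', hP'⟩ : ∃ P', P' = P \ {2 * v + 1, 2 * v - 1} := ⟨_, rfl⟩
  have hP'P : P' ⊆ P := by
    rw [hP']
    exact sdiff_subset
  have hcard : (n : ℝ) / Real.log n ^ (B + 1) ≤ P'.card := by
    have h5 : P.card ≤ P'.card + 2 := by
      have h6 := le_card_sdiff {2 * v + 1, 2 * v - 1} P
      have h7 := card_le_two (a := 2 * v + 1) (b := 2 * v - 1)
      rw [hP']
      omega
    have h6 : (P.card : ℝ) ≤ P'.card + 2 := by exact_mod_cast h5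
    have hn0 : (0 : ℝ) < n := by exact_mod_cast (by omega : 0 < n)
    have hL : 0 < Real.log n := by linarith
    have h7 : (n : ℝ) / Real.log n ^ B = Real.log n * (n / Real.log n ^ (B + 1)) := by
      field_simp
      ring
    have h8 : (2 : ℝ) ≤ n / Real.log n ^ (B + 1) := by
      rw [le_div_iff₀ (by positivity)]
      have h9 : Real.sqrt n ≤ n := by
        rw [Real.sqrt_le_left (by positivity)]
        have : (1 : ℝ) ≤ n := by exact_mod_cast (by omega : 1 ≤ n)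
        nlinarith
      have h10 : 0 < Real.log n ^ (B + 1) := by positivity
      linarith
    nlinarith
  have hw : ∀ p ∈ P, ((p - v : ℕ) : ℤ) = p - v ∧ 1 ≤ p - v ∧ p - v ≤ n := by
    intro p hp
    obtain ⟨g1, g2, -, -⟩ := hPm p hp
    omega
  refine ⟨P'.image (fun p => p - v), ?_, ?_, ?_⟩
  · intro w hw'
    rw [mem_image] at hw'
    obtain ⟨p, hp, rfl⟩ := hw'
    rw [mem_Icc]
    exact (hw p (hP'P hp)).2
  · rw [card_image_of_injOn]
    · exact hcard
    · intro p hp q hq hpq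
      have e1 := (hw p (hP'P hp)).1
      have e2 := (hw q (hP'P hq)).1
      simp only at hpq
      omega
  · intro w hw'
    rw [mem_image] at hw'
    obtain ⟨p, hp, rfl⟩ := hw'
    have hpn : p ≠ 2 * v + 1 ∧ p ≠ 2 * v - 1 := by
      rw [hP', Finset.mem_sdiff, mem_insert, mem_singleton] at hp
      tauto
    obtain ⟨e1, e2, e3⟩ := hw p (hP'P hp)
    obtain ⟨g1, g2, g3, g4⟩ := hPm p (hP'P hp)
    have k0 := g4 0
    have k1 := g4 1
    have k2 := g4 2
    simp only [Matrix.cons_val_zero, Matrix.cons_val_one, Matrix.cons_val] at k0 k1 k2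
    have hsum : v + (p - v) = p := by omega
    have hlt : (n : ℝ) ^ κ < (n : ℝ) ^ κ + 1 := by linarith
    have f0 : Rs ((n : ℝ) ^ κ) (Nat.dist v (p - v)) := Ro_Rs k0 hlt (by
      simp only [Nat.dist]
      omega)
    have f1 : Rs ((n : ℝ) ^ κ) (c + (p - v)) := Ro_Rs k1 hlt (by omega)
    have f2 : Rs ((n : ℝ) ^ κ) (Nat.dist c (p - v)) := Ro_Rs k2 hlt (by
      simp only [Nat.dist]
      omega)
    have hp3 : 3 < p := by omega
    have hop : Opp v (p - v) := Opp_of' hbig f0 (by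
      rw [hsum]
      intro h
      have := (Nat.prime_dvd_prime_iff_eq Nat.prime_three g3).1 h
      omega)
    refine ⟨⟨by rwa [hsum], ?_⟩, ?_, f0, hop, f1, f2⟩
    · rw [hsum]
      rcases g3.eq_two_or_odd' with h | h
      · omega
      · exact h
    · have := hop.1
      simp only [Nat.dist]
      omega

end Pool.Agent.Helper40.GR
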