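import Pool.Graph.R_pool_sql_team_seeded_b0a926ef.R498.MP.ULin

set_option autoImplicit false

/-!
# Primes at which given linear forms have no small prime factor
-/

namespace Pool.Agent.Helper40.GR

open Finset Filter
open Pool.Agent.R498.MP (linU APZ)

/-- `m ≠ 0` and all the prime factors of `m` are at least `x` -/
def Ro (x : ℝ) (m : ℤ) : Prop := m ≠ 0 ∧ ∀ p : ℕ, p.Prime → (p : ℤ) ∣ m → x ≤ p

theorem sieve (k : ℕ) : ∃ (B : ℕ) (δ : ℝ), 0 < δ ∧ ∀ A : ℕ, ∀ᶠ N : ℕ in atTop, ∀ a b : Fin k → ℤ,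
    (∀ i, |a i| ≤ (N : ℤ) ^ A ∧ |b i| ≤ (N : ℤ) ^ A) →
    (∀ p : ℕ, p.Prime → ∃ n : ℤ, ¬ (p : ℤ) ∣ n * ∏ i, (a i * n + b i)) →
    ∃ P : Finset ℕ, (N : ℝ) ≤ Real.log N ^ B * P.card ∧ ∀ p ∈ P, N < p ∧ p ≤ 2 * N ∧ p.Prime ∧
      ∀ i, Ro ((N : ℝ) ^ δ) (a i * (p : ℤ) + b i) := by
  classical
  obtain ⟨K, B, δ, hδ, h⟩ := linU k 1 squarefree_one 1
  refine ⟨B, δ, hδ, fun A => ?_⟩
  obtain ⟨r, hr⟩ := h A
  filter_upwards [hr (range K) (by rw [card_range])] with N hN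
  intro a b hab hadm
  obtain ⟨H, hHS, hH1, T, hT, hTm⟩ := hN a b hab hadm 0 (by
    rw [Nat.cast_one]
    exact isCoprime_one_right)
  obtain ⟨h0, hh0⟩ := card_pos.1 hH1
  refine ⟨T.image (fun n => n + h0), ?_, ?_⟩
  · rw [card_image_of_injective _ (fun x y hxy => by simpa using hxy)]
    exact hT
  · intro p hp
    rw [mem_image] at hp
    obtain ⟨n, hn, rfl⟩ := hp
    obtain ⟨g1, g2, g3, -⟩ := hTm n hn
    obtain ⟨k1, -, k3⟩ := g3 h0 hh0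
    have h1 : h0 ≤ (range K).sup id := le_sup (f := id) (hHS hh0)
    refine ⟨by omega, by omega, k1, fun i => ?_⟩
    obtain ⟨m1, -, m3⟩ := k3 i
    exact ⟨m1, m3⟩

end Pool.Agent.Helper40.GR
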